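import Pool.Agent.Helper44.FA.Geo2

set_option autoImplicit false

/-! Reduction to a symmetric set in a lattice of small dimension. -/

open scoped Pointwise

namespace Pool.Agent.Helper44.FA

open N173.BR Pool.Agent.TH198.DC H112

theorem Avg_map {d m n : ℕ} (hn : 1 ≤ n) {ψ : (Fin d → ℤ) →+ (Fin m → ℤ)}
    (hψ : Function.Injective ψ) {t : Fin m → ℤ} {R : Finset (Fin d → ℤ)} {S : Finset (Fin m → ℤ)}
    (h : ∀ z ∈ R, t + ψ z ∈ S) : (Avg n R).ncard ≤ (Avg n S).ncard := by
  refine Set.ncard_le_ncard_of_injOn (fun x => t + ψ x) ?_ ?_ (Avg_finite hn S)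
  · rintro x ⟨a, ha, hax⟩
    refine ⟨fun i => t + ψ (a i), fun i => h _ (ha i), ?_⟩
    rw [Finset.sum_add_distrib, ← map_sum, hax, map_nsmul, smul_add]
    simp
  · intro x _ y _ hxy
    exact hψ (add_left_cancel (hxy : t + ψ x = t + ψ y))

theorem reduce {m₀ n : ℕ} {K : ℝ} {S : Finset (Fin m₀ → ℤ)} (hS : S.Nonempty)
    (hK : ((S + S).card : ℝ) ≤ K * S.card) (hn : 1 ≤ n) :
    ∃ (d : ℕ) (ψ : (Fin d → ℤ) →+ (Fin m₀ → ℤ)) (t : Fin m₀ → ℤ) (R : Finset (Fin d → ℤ)),
      (d : ℝ) ≤ 480 * Real.log K + 1 ∧ Function.Injective ψ ∧ (∀ z ∈ R, t + ψ z ∈ S) ∧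
      (∀ z ∈ R, -z ∈ R) ∧ R.Nonempty ∧ (S.card : ℝ) ≤ 4 ^ d * K ^ 371 * R.card ∧
      (Avg n R).ncard ≤ (Avg n S).ncard := by
  classical
  obtain ⟨d, ψ, t, S0, hd, hψ, hS0, hcard0⟩ := weak_slice hS hK
  have hc : (0 : ℝ) < S.card := by exact_mod_cast hS.card_pos
  have hK1 : 1 ≤ K := by
    have h1 : (S.card : ℝ) ≤ (S + S).card := by
      exact_mod_cast Finset.card_le_card_add_right hS
    by_contra h
    nlinarith
  -- the most popular class
  let f : (Fin d → ℤ) → (Fin d → ZMod 2) := fun z i => (z i : ZMod 2)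
  obtain ⟨y, -, hy⟩ := pigeon S0 Finset.univ f (fun _ _ => Finset.mem_univ _) Finset.univ_nonempty
  have hcu : (Finset.univ : Finset (Fin d → ZMod 2)).card = 2 ^ d := by
    rw [Finset.card_univ, Fintype.card_fun, ZMod.card, Fintype.card_fin]
  rw [hcu] at hy
  set S1 := S0.filter (fun z => f z = y) with hS1
  have hS1S : ∀ z ∈ S1, t + ψ z ∈ S := fun z hz => hS0 z (Finset.mem_filter.1 hz).1
  have hS1ne : S1.Nonempty := by
    rw [← Finset.card_pos]
    by_contra h
    have h1 : S1.card = 0 := by omega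
    rw [h1, mul_zero] at hy
    have h2 : S0.card = 0 := by omega
    rw [h2] at hcard0
    simp only [Nat.cast_zero, mul_zero] at hcard0
    linarith
  -- the popular sum
  obtain ⟨s, hs, hsc⟩ := pigeon (S1 ×ˢ S1) (S1 + S1) (fun p => p.1 + p.2)
    (fun p hp => by
      rw [Finset.mem_product] at hp
      exact Finset.add_mem_add hp.1 hp.2) (hS1ne.add hS1ne)
  set R := S1.filter (fun a => s - a ∈ S1) with hR
  have hRc : ((S1 ×ˢ S1).filter fun p => p.1 + p.2 = s).card ≤ R.card := by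
    refine Finset.card_le_card_of_injOn (fun p => p.1) ?_ ?_
    · intro p hp
      rw [Finset.mem_coe, Finset.mem_filter, Finset.mem_product] at hp
      rw [Finset.mem_coe, hR, Finset.mem_filter]
      refine ⟨hp.1.1, ?_⟩
      rw [← hp.2, add_sub_cancel_left]
      exact hp.1.2
    · intro p hp q hq hpq
      rw [Finset.mem_coe, Finset.mem_filter] at hp hq
      have h1 : p.1 = q.1 := hpq
      have h2 : p.1 + p.2 = q.1 + q.2 := hp.2.trans hq.2.symm
      rw [h1] at h2
      exact Prod.ext h1 (add_left_cancel h2)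
  have hss : (S1 + S1).card ≤ (S + S).card := by
    refine Finset.card_le_card_of_injOn (fun z => t + t + ψ z) ?_ ?_
    · intro z hz
      rw [Finset.mem_coe] at hz
      obtain ⟨a, ha, b, hb, rfl⟩ := Finset.mem_add.1 hz
      rw [Finset.mem_coe]
      show t + t + ψ (a + b) ∈ S + S
      rw [map_add, show t + t + (ψ a + ψ b) = (t + ψ a) + (t + ψ b) by abel]
      exact Finset.add_mem_add (hS1S a ha) (hS1S b hb)
    · intro z _ w _ hzw
      exact hψ (add_left_cancel (hzw : t + t + ψ z = t + t + ψ w))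
  have hcardR : (S.card : ℝ) ≤ 4 ^ d * K ^ 371 * R.card := by
    have h1 : (S0.card : ℝ) ≤ 2 ^ d * S1.card := by exact_mod_cast hy
    have h2 : (S1.card : ℝ) * S1.card ≤ (K * S.card) * R.card := by
      have h3 : S1.card * S1.card ≤ (S + S).card * R.card := by
        rw [Finset.card_product] at hsc
        exact hsc.trans (Nat.mul_le_mul hss hRc)
      have h4 : (S1.card : ℝ) * S1.card ≤ (S + S).card * R.card := by exact_mod_cast h3
      exact h4.trans (by gcongr)
    have h5 : (S.card : ℝ) ≤ K ^ 185 * (2 ^ d * S1.card) := hcard0.trans (by gcongr)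
    have h6 : (S.card : ℝ) * S.card ≤ (4 ^ d * K ^ 371 * R.card) * S.card := by
      calc (S.card : ℝ) * S.card ≤ (K ^ 185 * (2 ^ d * S1.card)) * (K ^ 185 * (2 ^ d * S1.card)) := by
            gcongr
        _ = K ^ 370 * (2 ^ d * 2 ^ d) * (S1.card * S1.card) := by ring
        _ ≤ K ^ 370 * (2 ^ d * 2 ^ d) * ((K * S.card) * R.card) := by gcongr
        _ = (4 ^ d * K ^ 371 * R.card) * S.card := by
          rw [← mul_pow]; norm_num; ring
    exact le_of_mul_le_mul_right h6 hc
  have hRne : R.Nonempty := by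
    rw [← Finset.card_pos]
    by_contra h
    have h1 : R.card = 0 := by omega
    rw [h1] at hcardR
    simp only [Nat.cast_zero, mul_zero] at hcardR
    linarith
  -- the centre
  obtain ⟨a0, ha0⟩ := hRne
  have ha0' := Finset.mem_filter.1 ha0
  have heven : ∀ i, Even (s i) := by
    intro i
    have h1 := (Finset.mem_filter.1 ha0'.1).2
    have h2 := (Finset.mem_filter.1 ha0'.2).2
    have h3 : (a0 i : ZMod 2) = ((s - a0) i : ℤ) := by
      have h4 := congrFun (h1.trans h2.symm) i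
      exact h4
    rw [Pi.sub_apply, Int.cast_sub] at h3
    have h5 : ((s i : ℤ) : ZMod 2) = 0 := by
      have h6 : ((s i : ℤ) : ZMod 2) = (a0 i : ZMod 2) + (a0 i : ZMod 2) := by
        linear_combination -h3
      rw [h6, ← two_mul]
      have : (2 : ZMod 2) = 0 := by decide
      rw [this, zero_mul]
    exact (ZMod.intCast_zmod_eq_zero_iff_dvd _ 2).1 h5 |>.elim fun k hk => ⟨k, by rw [hk]; push_cast; ring⟩
  choose c hcs using heven
  have hcs' : s = c + c := by
    funext i
    exact hcs i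
  have hRS : ∀ z ∈ R.image (fun a => a - c), (t + ψ c) + ψ z ∈ S := by
    intro z hz
    obtain ⟨a, ha, rfl⟩ := Finset.mem_image.1 hz
    rw [add_assoc, ← map_add, add_sub_cancel]
    exact hS1S a (Finset.mem_filter.1 ha).1
  refine ⟨d, ψ, t + ψ c, R.image fun a => a - c, hd, hψ, hRS, ?_, ⟨_, Finset.mem_image_of_mem _ ha0⟩,
    ?_, Avg_map hn hψ hRS⟩
  · intro z hz
    obtain ⟨a, ha, rfl⟩ := Finset.mem_image.1 hz
    rw [hR, Finset.mem_filter] at ha
    refine Finset.mem_image.2 ⟨s - a, ?_, ?_⟩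
    · rw [hR, Finset.mem_filter]
      refine ⟨ha.2, ?_⟩
      rw [sub_sub_cancel]
      exact ha.1
    · rw [hcs']; abel
  · rw [Finset.card_image_of_injective _ sub_left_injective]
    exact hcardR

end Pool.Agent.Helper44.FA
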