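import Mathlib

set_option autoImplicit false

/-! Choice of the parameters. -/

namespace Pool.Agent.Helper44.FA

theorem log2_gt : (0.693 : ℝ) < Real.log 2 := by
  have := Real.log_two_gt_d9
  linarith

theorem log2_lt : Real.log 2 < 0.6932 := by
  have := Real.log_two_lt_d9
  linarith

/-- integer twentieth root -/
theorem exists_root {n : ℕ} (hn : 2 ^ 80 ≤ n) :
    ∃ h : ℕ, 1 ≤ h ∧ 2 ^ 80 * h ^ 20 ≤ n ∧ n < 2 ^ 80 * (h + 1) ^ 20 := by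
  classical
  have hex : ∃ h : ℕ, n < 2 ^ 80 * (h + 1) ^ 20 := by
    refine ⟨n, ?_⟩
    calc n < n + 1 := Nat.lt_succ_self n
      _ = (n + 1) ^ 1 := (pow_one _).symm
      _ ≤ (n + 1) ^ 20 := Nat.pow_le_pow_right (by omega) (by norm_num)
      _ ≤ 2 ^ 80 * (n + 1) ^ 20 := Nat.le_mul_of_pos_left _ (by positivity)
  have h1 : 1 ≤ Nat.find hex := by
    by_contra hc
    have h0 : Nat.find hex = 0 := by omega
    have h2 := Nat.find_spec hex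
    rw [h0] at h2
    norm_num at h2
    norm_num at hn
    omega
  refine ⟨Nat.find hex, h1, ?_, Nat.find_spec hex⟩
  obtain ⟨j, hj⟩ : ∃ j, Nat.find hex = j + 1 := ⟨Nat.find hex - 1, by omega⟩
  have h3 := Nat.find_min hex (m := j) (by omega)
  rw [hj]
  exact not_lt.1 h3

theorem num_kappa {n h : ℕ} {κ : ℝ} (hκ : Real.log 2 ≤ κ)
    (hn : 2 ^ 100 * κ ^ 5 ≤ n) (hh : 1 ≤ h) (hn2 : n < 2 ^ 80 * (h + 1) ^ 20) :
    κ ≤ (h : ℝ) ^ 4 := by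
  have hκ0 : 0 < κ := lt_of_lt_of_le (Real.log_pos (by norm_num)) hκ
  have hh' : (1 : ℝ) ≤ h := by exact_mod_cast hh
  have h1 : (n : ℝ) ≤ 2 ^ 80 * ((h : ℝ) + 1) ^ 20 := by exact_mod_cast hn2.le
  have h2 : ((h : ℝ) + 1) ^ 20 ≤ (2 * h) ^ 20 := by
    apply pow_le_pow_left₀ (by positivity)
    linarith
  have h3 : (2 : ℝ) ^ 100 * κ ^ 5 ≤ 2 ^ 100 * ((h : ℝ) ^ 4) ^ 5 := by
    calc (2 : ℝ) ^ 100 * κ ^ 5 ≤ 2 ^ 80 * ((h : ℝ) + 1) ^ 20 := hn.trans h1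
      _ ≤ 2 ^ 80 * (2 * h) ^ 20 := by gcongr
      _ = 2 ^ 100 * ((h : ℝ) ^ 4) ^ 5 := by ring
  have h4 : κ ^ 5 ≤ ((h : ℝ) ^ 4) ^ 5 := le_of_mul_le_mul_left h3 (by positivity)
  exact le_of_pow_le_pow_left₀ (by norm_num) (by positivity) h4

theorem num_n {n : ℕ} {κ : ℝ} (hκ : Real.log 2 ≤ κ) (hn : 2 ^ 100 * κ ^ 5 ≤ n) : 2 ^ 80 ≤ n := by
  have h1 : (0.693 : ℝ) ≤ κ := log2_gt.le.trans hκ
  have h2 : (0.693 : ℝ) ^ 5 ≤ κ ^ 5 := pow_le_pow_left₀ (by norm_num) h1 5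
  have h3 : (2 : ℝ) ^ 80 ≤ n := by
    calc (2 : ℝ) ^ 80 ≤ 2 ^ 100 * (0.693 : ℝ) ^ 5 := by norm_num
      _ ≤ 2 ^ 100 * κ ^ 5 := by gcongr
      _ ≤ n := hn
  exact_mod_cast h3

/-- the bound for the logarithm of `n` -/
theorem num_log {n h : ℕ} (hn : 2 ^ 80 ≤ n) (hh : 1 ≤ h) (hn2 : n < 2 ^ 80 * (h + 1) ^ 20) :
    Real.log n ≤ 69.32 + 20 * Real.log h := by
  have hn0 : (0 : ℝ) < n := by
    have : 0 < n := lt_of_lt_of_le (by positivity) hn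
    exact_mod_cast this
  have hh' : (1 : ℝ) ≤ h := by exact_mod_cast hh
  have h1 : (n : ℝ) ≤ 2 ^ 100 * (h : ℝ) ^ 20 := by
    calc (n : ℝ) ≤ 2 ^ 80 * ((h : ℝ) + 1) ^ 20 := by exact_mod_cast hn2.le
      _ ≤ 2 ^ 80 * (2 * h) ^ 20 := by
        gcongr
        linarith
      _ = 2 ^ 100 * (h : ℝ) ^ 20 := by ring
  have h2 := Real.log_le_log hn0 h1
  rw [Real.log_mul (by positivity) (by positivity), Real.log_pow, Real.log_pow] at h2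
  have := log2_lt
  push_cast at h2
  linarith

theorem num_Lam {n h d : ℕ} {κ L : ℝ} (hκ : Real.log 2 ≤ κ) (hd : (d : ℝ) ≤ 482 * κ)
    (hL : L ≤ 1041 * κ) (hlog : Real.log n ≤ 69.32 + 20 * Real.log h) (hh : 1 ≤ h) :
    d * Real.log n + L + 1 ≤ κ * (34457 + 9640 * Real.log h) := by
  have h1 : (0.693 : ℝ) ≤ κ := log2_gt.le.trans hκ
  have h0 : 0 ≤ Real.log h := Real.log_nonneg (by exact_mod_cast hh)
  have h2 : (d : ℝ) * Real.log n ≤ (482 * κ) * (69.32 + 20 * Real.log h) :=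
    mul_le_mul hd hlog (Real.log_natCast_nonneg n) (by positivity)
  nlinarith

/-- **Choice of the parameters.** -/
theorem params {n d : ℕ} {κ L : ℝ} (hκ : Real.log 2 ≤ κ) (hn : 2 ^ 100 * κ ^ 5 ≤ n)
    (hd : (d : ℝ) ≤ 482 * κ) (hL0 : 0 ≤ L) (hL : L ≤ 1041 * κ) :
    ∃ (N₁ m M₀ t : ℕ) (Λ : ℝ), Λ = d * Real.log n + L + 1 ∧ 1 ≤ N₁ ∧
      2 * (2 * (N₁ + 1)) ≤ n ∧ 2 * (2 * (1 + m * (N₁ * 2))) ≤ n ∧
      (1 / 4 : ℝ) ^ m ≤ Real.exp (-Λ) / 4 ∧ 0 < 4 * Real.sqrt (Λ / N₁) ∧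
      4 * Real.sqrt (Λ / N₁) ≤ 1 / 12 ∧
      (3 * (M₀ : ℝ) * t + 1) * (4 * Real.sqrt (Λ / N₁)) ≤ 1 / 6 ∧
      (2 * ((M₀ : ℝ) + 1) + 1) * (4 * Real.sqrt (Λ / N₁)) ≤ 1 / 6 ∧
      Real.exp Λ * Real.exp 1 < ((t : ℝ) + 1) ^ M₀ ∧ (M₀ : ℝ) ≤ 60000 * κ + 1 := by
  have hn80 := num_n hκ hn
  obtain ⟨h, hh, hn1, hn2⟩ := exists_root hn80
  have hκh := num_kappa hκ hn hh hn2
  have hlog := num_log hn80 hh hn2
  have hΛ := num_Lam hκ hd hL hlog hh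
  have h69 : (0.693 : ℝ) ≤ κ := log2_gt.le.trans hκ
  have hκ0 : 0 < κ := by linarith
  have hh' : (1 : ℝ) ≤ h := by exact_mod_cast hh
  have hh0 : (0 : ℝ) < h := by linarith
  have hlh0 : 0 ≤ Real.log h := Real.log_nonneg hh'
  obtain ⟨Λ, hΛdef⟩ : ∃ Λ : ℝ, Λ = d * Real.log n + L + 1 := ⟨_, rfl⟩
  rw [← hΛdef] at hΛ
  have hΛ1 : 1 ≤ Λ := by
    have : 0 ≤ (d : ℝ) * Real.log n := mul_nonneg (Nat.cast_nonneg _) (Real.log_natCast_nonneg n)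
    rw [hΛdef]
    linarith
  have hΛh : Λ ≤ 44100 * (h : ℝ) ^ 5 := by
    have h1 : Real.log h ≤ h := (Real.log_le_sub_one_of_pos hh0).trans (by linarith)
    calc Λ ≤ κ * (34457 + 9640 * Real.log h) := hΛ
      _ ≤ (h : ℝ) ^ 4 * (34457 * h + 9640 * h) := by
        gcongr
        linarith
      _ = 44097 * (h : ℝ) ^ 5 := by ring
      _ ≤ 44100 * (h : ℝ) ^ 5 := by
        gcongr
        norm_num
  have hnat20 : 1 ≤ h ^ 20 := Nat.one_le_pow _ _ hh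
  have hh15 : 1 ≤ h ^ 15 := Nat.one_le_pow _ _ hh
  have hN1 : 1 ≤ 2 ^ 60 * h ^ 15 := by
    norm_num
    omega
  have hN1r : (0 : ℝ) < ((2 ^ 60 * h ^ 15 : ℕ) : ℝ) := by exact_mod_cast hN1
  have hM₀up : ((⌈60000 * κ⌉₊ : ℕ) : ℝ) ≤ 60000 * κ + 1 := (Nat.ceil_lt_add_one (by positivity)).le
  have hM₀low : 60000 * κ ≤ ((⌈60000 * κ⌉₊ : ℕ) : ℝ) := Nat.le_ceil _
  -- the bound for the radius
  have hρ : 4 * Real.sqrt (Λ / ((2 ^ 60 * h ^ 15 : ℕ) : ℝ)) ≤ 1 / (6 * (180004 * (h : ℝ) ^ 5)) := by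
    have h1 : Λ / ((2 ^ 60 * h ^ 15 : ℕ) : ℝ) ≤ (1 / (24 * (180004 * (h : ℝ) ^ 5))) ^ 2 := by
      rw [div_le_iff₀ hN1r, div_pow, one_pow, div_mul_eq_mul_div, one_mul, le_div_iff₀ (by positivity)]
      push_cast
      calc Λ * (24 * (180004 * (h : ℝ) ^ 5)) ^ 2 ≤
            (44100 * (h : ℝ) ^ 5) * (24 * (180004 * (h : ℝ) ^ 5)) ^ 2 := by gcongr
        _ = (44100 * (24 * 180004) ^ 2) * (h : ℝ) ^ 15 := by ring
        _ ≤ 1152921504606846976 * (h : ℝ) ^ 15 := by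
          gcongr
          norm_num
        _ = _ := by norm_num
    have h2 := Real.sqrt_le_sqrt h1
    rw [Real.sqrt_sq (by positivity)] at h2
    calc 4 * Real.sqrt (Λ / ((2 ^ 60 * h ^ 15 : ℕ) : ℝ)) ≤
          4 * (1 / (24 * (180004 * (h : ℝ) ^ 5))) := by gcongr
      _ = 1 / (6 * (180004 * (h : ℝ) ^ 5)) := by
        field_simp
        norm_num
  have hρ0 : 0 ≤ 4 * Real.sqrt (Λ / ((2 ^ 60 * h ^ 15 : ℕ) : ℝ)) := by positivity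
  have hh5 : (1 : ℝ) ≤ (h : ℝ) ^ 5 := one_le_pow₀ hh'
  have hh4 : (1 : ℝ) ≤ (h : ℝ) ^ 4 := one_le_pow₀ hh'
  have hh45 : (h : ℝ) ^ 4 ≤ (h : ℝ) ^ 5 := pow_le_pow_right₀ hh' (by norm_num)
  have hkey : ∀ x : ℝ, 0 ≤ x → x ≤ 180004 * (h : ℝ) ^ 5 →
      x * (4 * Real.sqrt (Λ / ((2 ^ 60 * h ^ 15 : ℕ) : ℝ))) ≤ 1 / 6 := by
    intro x hx0 hx
    calc x * (4 * Real.sqrt (Λ / ((2 ^ 60 * h ^ 15 : ℕ) : ℝ))) ≤
          (180004 * (h : ℝ) ^ 5) * (1 / (6 * (180004 * (h : ℝ) ^ 5))) := by gcongr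
      _ = 1 / 6 := by field_simp
  refine ⟨2 ^ 60 * h ^ 15, 2 ^ 15 * h ^ 5, ⌈60000 * κ⌉₊, h, Λ, hΛdef, hN1, ?_, ?_, ?_, ?_, ?_, ?_, ?_,
    ?_, hM₀up⟩
  · refine le_trans ?_ hn1
    have h1 : h ^ 15 ≤ h ^ 20 := Nat.pow_le_pow_right hh (by norm_num)
    norm_num
    omega
  · refine le_trans ?_ hn1
    have h1 : 2 ^ 15 * h ^ 5 * (2 ^ 60 * h ^ 15 * 2) = 2 ^ 76 * h ^ 20 := by ring
    rw [h1]
    norm_num
    omega
  · -- the tail
    have h1 : Λ + Real.log 4 ≤ (2 ^ 15 * h ^ 5 : ℕ) * Real.log 4 := by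
      have h4 : Real.log 4 = 2 * Real.log 2 := by
        rw [show (4 : ℝ) = 2 ^ 2 by norm_num, Real.log_pow]
        norm_num
      have h5 : (1.386 : ℝ) ≤ Real.log 4 := by
        have := log2_gt
        rw [h4]; linarith
      have h6 : Real.log 4 ≤ 2 := by
        have := log2_lt
        rw [h4]; linarith
      calc Λ + Real.log 4 ≤ 44102 * (h : ℝ) ^ 5 := by linarith
        _ ≤ (32768 * (h : ℝ) ^ 5) * 1.386 := by linarith
        _ ≤ (32768 * (h : ℝ) ^ 5) * Real.log 4 := by gcongr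
        _ = (2 ^ 15 * h ^ 5 : ℕ) * Real.log 4 := by
          push_cast
          norm_num
    have h2 : (1 / 4 : ℝ) ^ (2 ^ 15 * h ^ 5) = Real.exp (-((2 ^ 15 * h ^ 5 : ℕ) * Real.log 4)) := by
      rw [Real.exp_neg, Real.exp_nat_mul, Real.exp_log (by norm_num), one_div, inv_pow]
    have h3 : Real.exp (-Λ) / 4 = Real.exp (-(Λ + Real.log 4)) := by
      rw [neg_add, Real.exp_add, Real.exp_neg (Real.log 4), Real.exp_log (by norm_num)]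
      ring
    rw [h2, h3, Real.exp_le_exp]
    linarith
  · have : 0 < Λ / ((2 ^ 60 * h ^ 15 : ℕ) : ℝ) := by positivity
    positivity
  · have h1 := hkey 2 (by norm_num) (by linarith)
    linarith
  · apply hkey
    · positivity
    · calc 3 * ((⌈60000 * κ⌉₊ : ℕ) : ℝ) * h + 1 ≤ 3 * (60000 * (h : ℝ) ^ 4 + 1) * h + 1 := by
            gcongr
            linarith
        _ = 180000 * (h : ℝ) ^ 5 + 3 * h + 1 := by ring
        _ ≤ 180004 * (h : ℝ) ^ 5 := by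
          have h1 : (h : ℝ) ≤ (h : ℝ) ^ 5 := by
            calc (h : ℝ) = (h : ℝ) ^ 1 := (pow_one _).symm
              _ ≤ (h : ℝ) ^ 5 := pow_le_pow_right₀ hh' (by norm_num)
          linarith
  · apply hkey
    · positivity
    · have h1 : ((⌈60000 * κ⌉₊ : ℕ) : ℝ) ≤ 60000 * (h : ℝ) ^ 4 + 1 := by linarith
      linarith
  · -- the dimension
    rw [← Real.exp_add]
    have h1 : ((h : ℝ) + 1) ^ ⌈60000 * κ⌉₊ = Real.exp ((⌈60000 * κ⌉₊ : ℕ) * Real.log (h + 1)) := by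
      rw [Real.exp_nat_mul, Real.exp_log (by positivity)]
    rw [h1, Real.exp_lt_exp]
    have h2 : Real.log h ≤ Real.log (h + 1) := Real.log_le_log hh0 (by linarith)
    have h3 : (0.693 : ℝ) ≤ Real.log (h + 1) :=
      log2_gt.le.trans (Real.log_le_log (by norm_num) (by linarith))
    have h4 : (60000 * κ) * Real.log (h + 1) ≤ (⌈60000 * κ⌉₊ : ℕ) * Real.log (h + 1) := by
      apply mul_le_mul_of_nonneg_right hM₀low
      linarith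
    refine lt_of_lt_of_le ?_ h4
    have h5 : κ * (34457 + 9640 * Real.log h) ≤ κ * (34457 + 9640 * Real.log (h + 1)) := by gcongr
    have h6 : κ * 34459 < κ * (50360 * Real.log (h + 1)) := by
      apply mul_lt_mul_of_pos_left _ hκ0
      linarith
    have h7 : (1 : ℝ) ≤ κ * 2 := by linarith
    have h8 : κ * (34457 + 9640 * Real.log (h + 1)) =
        κ * 34457 + 9640 * (κ * Real.log (h + 1)) := by ring
    have h9 : κ * (50360 * Real.log (h + 1)) = 50360 * (κ * Real.log (h + 1)) := by ring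
    have h10 : 60000 * κ * Real.log (h + 1) = 60000 * (κ * Real.log (h + 1)) := by ring
    linarith

end Pool.Agent.Helper44.FA
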