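import Pool.Agent.Helper44.FA.Red
import Pool.Agent.Helper44.FA.Num

set_option autoImplicit false

/-! Symmetric sets with few averages. -/

open scoped Pointwise

namespace Pool.Agent.Helper44.FA

open N173.BR Pool.Agent.TH198.DC H112

theorem log_growth {d n j : ℕ} {S : Finset (Fin d → ℤ)} (hS : S.Nonempty) (hs : ∀ s ∈ S, -s ∈ S)
    (hn : 1 ≤ n) (hev : Even n) (hj : 2 * j ≤ n) {L : ℝ}
    (hAvg : ((Avg n S).ncard : ℝ) ≤ Real.exp L * S.card) :
    Real.log (SmF S j).card ≤ Real.log S.card + (d * Real.log n + L + 1) := by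
  have hS0 : (0 : ℝ) < S.card := by exact_mod_cast hS.card_pos
  have hn0 : (0 : ℝ) < n := by exact_mod_cast hn
  have h1 : ((SmF S j).card : ℝ) ≤ (n : ℝ) ^ d * (Real.exp L * S.card) := by
    have h2 : ((SmF S j).card : ℝ) ≤ (n : ℝ) ^ d * ((Avg n S).ncard : ℝ) := by
      exact_mod_cast growth hS hs hn hev hj
    exact h2.trans (by gcongr)
  have hpos : (0 : ℝ) < (SmF S j).card := by exact_mod_cast (SmF_nonempty hS j).card_pos
  have h3 := Real.log_le_log hpos h1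
  rw [Real.log_mul (by positivity) (by positivity), Real.log_mul (by positivity) (by positivity),
    Real.log_pow, Real.log_exp] at h3
  linarith

theorem piece_core {d n : ℕ} {S : Finset (Fin d → ℤ)} (hS : S.Nonempty) (hs : ∀ s ∈ S, -s ∈ S)
    (hev : Even n) {κ L : ℝ} (hκ : Real.log 2 ≤ κ) (hn : 2 ^ 100 * κ ^ 5 ≤ n)
    (hd : (d : ℝ) ≤ 482 * κ) (hL0 : 0 ≤ L) (hL : L ≤ 1041 * κ)
    (hAvg : ((Avg n S).ncard : ℝ) ≤ Real.exp L * S.card) :
    ∃ (m : ℕ) (ψ : (Fin m → ℤ) →+ (Fin d → ℤ)) (F : Finset (Fin m → ℤ)) (e₀ : Fin d → ℤ)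
      (C : Set (Fin m → ℝ)), (∀ f ∈ F, e₀ + ψ f ∈ S) ∧
      (∀ a ∈ F, ∀ b ∈ F, ∀ c ∈ F, ∀ e ∈ F, ψ (a + b) = ψ (c + e) → a + b = c + e) ∧
      Convex ℝ C ∧ (LP C).Finite ∧ (∀ f ∈ F, f ∈ LP C) ∧ (LP C).ncard ≤ (Avg n S).ncard ∧
      (m : ℝ) ≤ 60000 * κ ∧ (S.card : ℝ) ≤ Real.exp 1 * 25 ^ m * F.card := by
  classical
  have hn1 : 1 ≤ n := le_trans Nat.one_le_two_pow (num_n hκ hn)
  have hS0 : (0 : ℝ) < S.card := by exact_mod_cast hS.card_pos
  obtain ⟨N₁, m₁, M₀, t, Λ, hΛ, hN₁, hp1, hp2, hp3, hρ0, hρ12, hp4, hp5, hp6, hM₀⟩ :=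
    params hκ hn hd hL0 hL
  have hg1 := log_growth hS hs hn1 hev hp1 hAvg
  have hg2 := log_growth hS hs hn1 hev hp2 hAvg
  rw [← hΛ] at hg1 hg2
  obtain ⟨Sp, E, hES, hEc, hEE, hfin, hSm⟩ := fourier_core hS hs hN₁ hg1 hg2 hp3
  set ρ := 4 * Real.sqrt (Λ / N₁) with hρ
  obtain ⟨m, N, ψ, hN, h1, h2, hspan⟩ := lattice_repr Sp hfin hρ0.le (by linarith : ρ ≤ 1 / 6)
  have hEne : E.Nonempty := by
    rw [← Finset.card_pos]
    have : (0 : ℝ) < E.card := lt_of_lt_of_le (by positivity) hEc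
    exact_mod_cast this
  -- the dimension
  have hmM : m < M₀ := by
    by_contra hcon
    push Not at hcon
    have hlow : (S.card : ℝ) * Real.exp (-1) ≤ (bohr Sp ρ).ncard := by
      refine hEc.trans ?_
      obtain ⟨e, he⟩ := hEne
      have hfinρ : (bohr Sp ρ).Finite := hfin.subset (main_bohr_mono (by linarith))
      have h3 : (E.image fun x => x - e).card = E.card :=
        Finset.card_image_of_injective _ sub_left_injective
      have h4 : (((E.image fun x => x - e) : Finset (Fin d → ℤ)) : Set (Fin d → ℤ)).ncard ≤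
          (bohr Sp ρ).ncard := by
        refine Set.ncard_le_ncard ?_ hfinρ
        intro z hz
        rw [Finset.coe_image] at hz
        obtain ⟨x, hx, rfl⟩ := hz
        exact hEE x hx e he
      rw [Set.ncard_coe_finset, h3] at h4
      exact_mod_cast h4
    have hsize : ((bohr Sp (1 / 6)).ncard : ℝ) ≤ Real.exp Λ * S.card := by
      have h3 : (bohr Sp (1 / 6)).ncard ≤ (SmF S (2 * (1 + m₁ * (N₁ * 2)))).card := by
        rw [← Set.ncard_coe_finset]
        refine Set.ncard_le_ncard ?_ (Finset.finite_toSet _)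
        intro x hx
        exact Finset.mem_coe.2 (mem_SmF.2 (hSm x hx))
      have hpos : (0 : ℝ) < (SmF S (2 * (1 + m₁ * (N₁ * 2)))).card := by
        exact_mod_cast (SmF_nonempty hS _).card_pos
      have h4 : ((SmF S (2 * (1 + m₁ * (N₁ * 2)))).card : ℝ) ≤ Real.exp Λ * S.card := by
        rw [← Real.log_le_log_iff hpos (by positivity), Real.log_mul (by positivity) hS0.ne',
          Real.log_exp]
        linarith
      exact le_trans (by exact_mod_cast h3) h4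
    have h3 := dim_aux hfin hN hS0 h1 h2 hspan hρ0 hρ12 hcon hp4 hlow hsize
    linarith
  have hmκ : (m : ℝ) ≤ 60000 * κ := by
    have : (m : ℝ) + 1 ≤ M₀ := by exact_mod_cast hmM
    linarith
  have hmρ : (2 * ((m : ℝ) + 1) + 1) * ρ ≤ 1 / 6 := by
    refine le_trans ?_ hp5
    have : (m : ℝ) ≤ M₀ := by exact_mod_cast hmM.le
    gcongr
  obtain ⟨F, e₀, C, hF1, hF2, hC1, hC2, hC3, hC4, hcard⟩ := geo hS hs hn1 hev hp2 (even_two_mul _)
    hES hEne hρ0 hEE hfin hSm hN h1 h2 hmρ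
  refine ⟨m, ψ, F, e₀, C, fun f hf => hES (hF1 f hf), hF2, hC1, hC2, hC3, hC4, hmκ, ?_⟩
  have h3 : (S.card : ℝ) ≤ Real.exp 1 * E.card := by
    have h4 : (S.card : ℝ) = Real.exp 1 * (S.card * Real.exp (-1)) := by
      rw [Real.exp_neg]; field_simp
    rw [h4]
    gcongr
  have h5 : (E.card : ℝ) ≤ 25 ^ m * F.card := by exact_mod_cast hcard
  calc (S.card : ℝ) ≤ Real.exp 1 * E.card := h3
    _ ≤ Real.exp 1 * (25 ^ m * F.card) := by gcongr
    _ = Real.exp 1 * 25 ^ m * F.card := by ring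

end Pool.Agent.Helper44.FA
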