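import Mathlib

set_option autoImplicit false

/-! Definitions used in the statement. -/

open scoped Pointwise

namespace Pool.Agent.Helper44.FA

/-- the `n`-fold integer averages of `S`: the `x` with `n x = a 1 + ... + a n`, all `a i` in `S` -/
def Avg {m : ℕ} (n : ℕ) (S : Finset (Fin m → ℤ)) : Set (Fin m → ℤ) :=
  {x | ∃ a : Fin n → Fin m → ℤ, (∀ i, a i ∈ S) ∧ ∑ i, a i = n • x}

/-- the `k`-fold sums of elements of `S` -/
def Sums {m : ℕ} (k : ℕ) (S : Finset (Fin m → ℤ)) : Set (Fin m → ℤ) :=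
  {x | ∃ a : Fin k → Fin m → ℤ, (∀ i, a i ∈ S) ∧ ∑ i, a i = x}

/-- the classes modulo `n` of the `k`-fold sums of elements of `S` -/
def Classes {m : ℕ} (n k : ℕ) (S : Finset (Fin m → ℤ)) : Set (Fin m → ZMod n) :=
  (fun z i => (z i : ZMod n)) '' Sums k S

/-- `A` has a piece with few `n`-fold averages, with constant `M`: for some `m` (of any size) there
are a finite set `S` in `ℤ^m`, a homomorphism `φ` to the integers which is injective on `S + S`, and
an integer `t` such that `t + φ(S)` is contained in `A` and contains at least `|A| / M` elements and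
`S` has at most `M |S|` integer `n`-fold averages. -/
def AvgPiece (n : ℕ) (M : ℝ) (A : Finset ℤ) : Prop :=
  ∃ (m : ℕ) (S : Finset (Fin m → ℤ)) (φ : (Fin m → ℤ) →+ ℤ) (t : ℤ),
    Set.InjOn φ ((S + S : Finset (Fin m → ℤ)) : Set (Fin m → ℤ)) ∧ (∀ s ∈ S, t + φ s ∈ A) ∧
    (A.card : ℝ) ≤ M * S.card ∧ ((Avg n S).ncard : ℝ) ≤ M * S.card

/-- the conclusion of the conjecture: `A` is covered by at most `C K ^ C` translates of a convex
progression of dimension at most `C (1 + log K)` and volume at most `|A|` -/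
def Covered (C K : ℝ) (A : Finset ℤ) : Prop :=
  ∃ (d : ℕ) (B : Set (Fin d → ℝ)) (v : Fin d → ℤ) (T : Finset ℤ),
    (d : ℝ) ≤ C * (1 + Real.log K) ∧
    Convex ℝ B ∧ IsCompact B ∧ (interior B).Nonempty ∧ (∀ x ∈ B, -x ∈ B) ∧
    ({x : Fin d → ℤ | (fun i => (x i : ℝ)) ∈ B}.ncard ≤ A.card) ∧
    ((T.card : ℝ) ≤ C * K ^ C) ∧
    ∀ a ∈ A, ∃ t ∈ T, ∃ x : Fin d → ℤ,
      (fun i => (x i : ℝ)) ∈ B ∧ a = t + ∑ i, v i * x i

end Pool.Agent.Helper44.FA
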