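import Pool.Agent.Helper44.FA.Four

set_option autoImplicit false

/-! A dense part of a set in a translate of a small dilate of a convex body. -/

open scoped Pointwise

namespace Pool.Agent.Helper44.FA

open N173.BR Pool.Agent.TH198.DC H112

theorem dense_part {d : ℕ} {B : Set (Fin d → ℝ)} (hB : SB B) (F : Finset (Fin d → ℤ))
    (hne : F.Nonempty) (e : Fin d → ℤ) (hF : ∀ x ∈ F, rv (x - e) ∈ (2 : ℝ) • B) :
    ∃ x ∈ F, ∃ F' ⊆ F, F.card ≤ 5 ^ d * F'.card ∧ ∀ y ∈ F', rv (y - x) ∈ B := by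
  classical
  let Good : Finset (Fin d → ℤ) → Prop := fun X => ∀ x ∈ X, ∀ y ∈ X, x ≠ y → rv x - rv y ∉ B
  obtain ⟨X, hX, hmax⟩ := Finset.exists_max_image (F.powerset.filter Good) Finset.card
    ⟨∅, by simp [Good]⟩
  rw [Finset.mem_filter, Finset.mem_powerset] at hX
  obtain ⟨hXF, hXg⟩ := hX
  have hXcard : X.card ≤ 5 ^ d := by
    have h1 := hB.pack (X.image fun x => x - e) (by
      intro z hz
      obtain ⟨x, hx, rfl⟩ := Finset.mem_image.1 hz
      exact hF x (hXF hx)) (by
      intro z hz w hw hzw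
      obtain ⟨x, hx, rfl⟩ := Finset.mem_image.1 hz
      obtain ⟨y, hy, rfl⟩ := Finset.mem_image.1 hw
      have hxy : x ≠ y := by rintro rfl; exact hzw rfl
      have h2 := hXg x hx y hy hxy
      have h3 : rv (x - e) - rv (y - e) = rv x - rv y := by
        rw [rv_sub, rv_sub]; abel
      rwa [h3])
    rwa [Finset.card_image_of_injective _ sub_left_injective] at h1
  have hcov : ∀ y ∈ F, ∃ x ∈ X, rv (y - x) ∈ B := by
    intro y hy
    by_contra hc
    push Not at hc
    have hfar : ∀ x ∈ X, rv y - rv x ∉ B := by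
      intro x hx h
      apply hc x hx
      rw [rv_sub]
      exact h
    have hyX : y ∉ X := by
      intro h
      apply hfar y h
      rw [sub_self]
      exact hB.zero_mem
    have h1 := hmax (insert y X) (by
      rw [Finset.mem_filter, Finset.mem_powerset]
      refine ⟨Finset.insert_subset hy hXF, ?_⟩
      intro a ha b hb hab
      rw [Finset.mem_insert] at ha hb
      rcases ha with rfl | ha <;> rcases hb with rfl | hb
      · exact absurd rfl hab
      · exact hfar b hb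
      · intro h
        apply hfar a ha
        have := hB.symm _ h
        rwa [neg_sub] at this
      · exact hXg a ha b hb hab)
    rw [Finset.card_insert_of_notMem hyX] at h1
    omega
  choose! τ hτX hτ using hcov
  have hXne : X.Nonempty := by
    obtain ⟨a, ha⟩ := hne
    exact ⟨τ a, hτX a ha⟩
  obtain ⟨x, hx, hcard⟩ := pigeon F X τ hτX hXne
  refine ⟨x, hXF hx, F.filter fun a => τ a = x, Finset.filter_subset _ _, ?_, ?_⟩
  · exact hcard.trans (Nat.mul_le_mul_right _ hXcard)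
  · intro y hy
    rw [Finset.mem_filter] at hy
    have := hτ y hy.1
    rwa [hy.2] at this

/-- two steps -/
theorem dense_part2 {d : ℕ} {B : Set (Fin d → ℝ)} (hB : SB B) (F : Finset (Fin d → ℤ))
    (hne : F.Nonempty) (hF : ∀ x ∈ F, ∀ y ∈ F, rv (x - y) ∈ B) :
    ∃ x ∈ F, ∃ F' ⊆ F, F.card ≤ 25 ^ d * F'.card ∧ ∀ y ∈ F', rv (y - x) ∈ (1 / 4 : ℝ) • B := by
  obtain ⟨e, he⟩ := hne
  obtain ⟨x₁, hx₁, F₁, hF₁, hc₁, h₁⟩ := dense_part (hB.smul (by norm_num : (0 : ℝ) < 1 / 2)) F
    ⟨e, he⟩ e (by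
      intro x hx
      rw [smul_smul]
      norm_num
      exact hF x hx e he)
  have hne₁ : F₁.Nonempty := by
    rw [← Finset.card_pos]
    by_contra h
    have h0 : F₁.card = 0 := by omega
    rw [h0, mul_zero] at hc₁
    have : 0 < F.card := Finset.card_pos.2 ⟨e, he⟩
    omega
  obtain ⟨x₂, hx₂, F₂, hF₂, hc₂, h₂⟩ := dense_part (hB.smul (by norm_num : (0 : ℝ) < 1 / 4)) F₁
    hne₁ x₁ (by
      intro x hx
      rw [smul_smul]
      have := h₁ x hx
      norm_num at this ⊢
      exact this)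
  refine ⟨x₂, hF₁ hx₂, F₂, hF₂.trans hF₁, ?_, h₂⟩
  calc F.card ≤ 5 ^ d * F₁.card := hc₁
    _ ≤ 5 ^ d * (5 ^ d * F₂.card) := Nat.mul_le_mul_left _ hc₂
    _ = 25 ^ d * F₂.card := by rw [← mul_assoc, ← mul_pow]; norm_num

end Pool.Agent.Helper44.FA
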