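import Pool.Agent.Helper44.FA.Main

set_option autoImplicit false

/-! Equivalent forms of the conjecture, and sets of minimal growth. -/

open scoped Pointwise

namespace Pool.Agent.Helper44.FA

open N173.BR Pool.Agent.TH198.DC H112
open Pool.Agent.R934.PF hiding Covered

/-- averages are lattice points of the convex hull -/
theorem Avg_subset_hull {m n : ℕ} (hn : 1 ≤ n) (S : Finset (Fin m → ℤ)) :
    Avg n S ⊆ LP (hull S) := by
  rintro x ⟨a, ha, hax⟩
  have hn0 : (0 : ℝ) < n := by exact_mod_cast hn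
  have h1 : rv x = ∑ i, (1 / n : ℝ) • rv (a i) := by
    rw [← Finset.smul_sum, ← rv_sum, hax, rv_nsmul, smul_smul, one_div, inv_mul_cancel₀ hn0.ne',
      one_smul]
  show rv x ∈ hull S
  rw [h1]
  refine (convex_convexHull ℝ _).sum_mem (fun i _ => by positivity) ?_ fun i _ => mem_hull (ha i)
  rw [Finset.sum_const, Finset.card_univ, Fintype.card_fin, nsmul_eq_mul]
  field_simp

theorem Piece.avgPiece {M : ℝ} {A : Finset ℤ} (h : Piece M A) {n : ℕ} (hn : 1 ≤ n) :
    AvgPiece n M A := by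
  obtain ⟨m, S, φ, t, hinj, hSA, hM, hL⟩ := h
  refine ⟨m, S, φ, t, ?_, hSA, hM, ?_⟩
  · intro z hz w hw hzw
    obtain ⟨x, hx, y, hy, rfl⟩ := Finset.mem_add.1 (Finset.mem_coe.1 hz)
    obtain ⟨x', hx', y', hy', rfl⟩ := Finset.mem_add.1 (Finset.mem_coe.1 hw)
    exact hinj.two hx hy hx' hy' hzw
  · have h1 : (Avg n S).ncard ≤ (LP (hull S)).ncard :=
      Set.ncard_le_ncard (Avg_subset_hull hn S) (hull_fin S)
    have h2 : ((Avg n S).ncard : ℝ) ≤ (LP (hull S)).ncard := by exact_mod_cast h1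
    exact h2.trans hL

/-- the covering, in the integers -/
theorem cover_int {K M : ℝ} {A : Finset ℤ} (hA : A.Nonempty)
    (hK : ((A + A).card : ℝ) ≤ K * A.card) {n : ℕ} (hev : Even n)
    (hn : 2 ^ 100 * Real.log (2 * (K * M)) ^ 5 ≤ n) (h : AvgPiece n M A) :
    ∃ (d : ℕ) (B : Set (Fin d → ℝ)) (v : Fin d → ℤ) (T : Finset ℤ),
      (d : ℝ) ≤ 10 ^ 8 * Real.log (2 * (K * M)) ∧
      Convex ℝ B ∧ IsCompact B ∧ (interior B).Nonempty ∧ (∀ x ∈ B, -x ∈ B) ∧
      ({x : Fin d → ℤ | (fun i => (x i : ℝ)) ∈ B}.ncard ≤ A.card) ∧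
      ((T.card : ℝ) ≤ (2 * (K * M)) ^ (10 ^ 9 : ℝ)) ∧
      ∀ a ∈ A, ∃ t ∈ T, ∃ x : Fin d → ℤ, (fun i => (x i : ℝ)) ∈ B ∧ a = t + ∑ i, v i * x i := by
  obtain ⟨m, S, φ, t, hinj, hSA, hM, hL⟩ := h
  obtain ⟨d, B, ψ, T, hd, hB, hBc, hT, hcov⟩ := cover_of_avg hA hK hev hn S φ t hinj hSA hM hL
  refine ⟨d, B, fun i => ψ (Pi.single i 1), T, hd, hB.conv, hB.comp, hB.inter, hB.symm, hBc, hT, ?_⟩
  intro a ha
  obtain ⟨t, ht, x, hx, hax⟩ := hcov a ha
  exact ⟨t, ht, x, hx, by rw [hax, eq_hom ψ x]⟩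

theorem one_le_of_avgPiece {n : ℕ} {M : ℝ} {A : Finset ℤ} (hA : A.Nonempty) (h : AvgPiece n M A) :
    1 ≤ M := by
  obtain ⟨m, S, φ, t, hφ, hSA, hM, -⟩ := h
  have hAc : (0 : ℝ) < A.card := by exact_mod_cast hA.card_pos
  have hinj : Set.InjOn (fun s => t + φ s) (S : Set (Fin m → ℤ)) := by
    intro x hx y hy hxy
    have h1 : φ x = φ y := add_left_cancel (hxy : t + φ x = t + φ y)
    have h3 : x + x = x + y := hφ (Finset.mem_coe.2 (Finset.add_mem_add hx hx))
      (Finset.mem_coe.2 (Finset.add_mem_add hx hy)) (by rw [map_add, map_add, h1])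
    exact add_left_cancel h3
  have hSAc : (S.card : ℝ) ≤ A.card := by
    exact_mod_cast Finset.card_le_card_of_injOn (fun s => t + φ s) (fun s hs => hSA s hs) hinj
  by_contra h
  push Not at h
  rcases le_or_gt M 0 with h0 | h0
  · have : M * (S.card : ℝ) ≤ 0 := mul_nonpos_of_nonpos_of_nonneg h0 (Nat.cast_nonneg _)
    linarith
  · nlinarith

/-- **Equivalent forms of the conjecture.** -/
theorem avg_tfae : List.TFAE [
    ∃ C : ℝ, 0 < C ∧ ∀ (K : ℝ) (A : Finset ℤ), A.Nonempty →
      ((A + A).card : ℝ) ≤ K * (A.card : ℝ) → FA.Covered C K A,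
    ∃ C : ℝ, 0 < C ∧ ∀ (K : ℝ) (A : Finset ℤ), A.Nonempty →
      ((A + A).card : ℝ) ≤ K * (A.card : ℝ) → ∀ n : ℕ, 1 ≤ n → AvgPiece n (C * K ^ C) A,
    ∃ C : ℝ, 0 < C ∧ ∀ (K : ℝ) (A : Finset ℤ), A.Nonempty →
      ((A + A).card : ℝ) ≤ K * (A.card : ℝ) →
      ∃ n : ℕ, Even n ∧ 2 ^ 105 * (C * Real.log (2 * K)) ^ 5 ≤ n ∧ AvgPiece n (C * K ^ C) A] := by
  tfae_have 1 → 2 := by
    intro h
    obtain ⟨C, hC, h2⟩ := (main_tfae.out 0 2).1 h
    exact ⟨C, hC, fun K A hA hK n hn => Piece.avgPiece (h2 K A hA hK) hn⟩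
  tfae_have 2 → 3 := by
    rintro ⟨C, hC, h⟩
    refine ⟨C, hC, fun K A hA hK => ?_⟩
    refine ⟨2 * (⌈2 ^ 105 * (C * Real.log (2 * K)) ^ 5⌉₊ + 1), even_two_mul _, ?_,
      h K A hA hK _ (by omega)⟩
    have h1 := Nat.le_ceil (2 ^ 105 * (C * Real.log (2 * K)) ^ 5)
    push_cast
    have h2 : (0 : ℝ) ≤ (⌈2 ^ 105 * (C * Real.log (2 * K)) ^ 5⌉₊ : ℝ) := Nat.cast_nonneg _
    linarith
  tfae_have 3 → 1 := by
    rintro ⟨C, hC, h⟩
    -- the constant is at least one
    have hC1 : 1 ≤ C := by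
      obtain ⟨n, -, -, hn⟩ := h 1 {0} ⟨0, Finset.mem_singleton_self _⟩ (by simp)
      have := one_le_of_avgPiece ⟨0, Finset.mem_singleton_self _⟩ hn
      rwa [Real.one_rpow, mul_one] at this
    obtain ⟨a, ha⟩ : ∃ a : ℝ, a = 2 * 10 ^ 9 * C := ⟨_, rfl⟩
    have ha0 : 0 < a := by rw [ha]; positivity
    refine ⟨2 ^ a + a, by positivity, ?_⟩
    intro K A hA hK
    have hK1 := one_le_of_doubling hA hK
    have hK0 : 0 < K := by linarith
    have hlogK : 0 ≤ Real.log K := Real.log_nonneg hK1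
    have hl2 : 0 < Real.log 2 := Real.log_pos (by norm_num)
    obtain ⟨n, hev, hn, hp⟩ := h K A hA hK
    -- the logarithm
    have hκ : Real.log (2 * (K * (C * K ^ C))) ≤ 2 * C * Real.log (2 * K) := by
      have h1 : Real.log (2 * (K * (C * K ^ C))) =
          Real.log (2 * C) + (1 + C) * Real.log K := by
        rw [Real.log_mul (by norm_num) (by positivity), Real.log_mul hK0.ne' (by positivity),
          Real.log_mul hC.ne' (by positivity), Real.log_rpow hK0,
          Real.log_mul (by norm_num) hC.ne']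
        ring
      have h2 : Real.log (2 * C) ≤ 2 * C * Real.log 2 := by
        have h3 : Real.log C ≤ C - 1 := Real.log_le_sub_one_of_pos hC
        have h4 : Real.log (2 * C) = Real.log 2 + Real.log C := Real.log_mul (by norm_num) hC.ne'
        have h5 := log2_gt
        nlinarith
      rw [h1, Real.log_mul (by norm_num) hK0.ne']
      nlinarith
    have hκ0 : 0 ≤ Real.log (2 * (K * (C * K ^ C))) := by
      apply Real.log_nonneg
      have h1 : 1 ≤ K ^ C := Real.one_le_rpow hK1 hC.le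
      have h2 : 1 ≤ C * K ^ C := by nlinarith
      nlinarith
    have hn' : 2 ^ 100 * Real.log (2 * (K * (C * K ^ C))) ^ 5 ≤ n := by
      refine le_trans ?_ hn
      calc 2 ^ 100 * Real.log (2 * (K * (C * K ^ C))) ^ 5 ≤
            2 ^ 100 * (2 * C * Real.log (2 * K)) ^ 5 := by gcongr
        _ = 2 ^ 105 * (C * Real.log (2 * K)) ^ 5 := by ring
    obtain ⟨d, B, v, T, hd, hB1, hB2, hB3, hB4, hBc, hT, hcov⟩ := cover_int hA hK hev hn' hp
    have h2a : 0 < (2 : ℝ) ^ a := by positivity
    refine ⟨d, B, v, T, ?_, hB1, hB2, hB3, hB4, hBc, ?_, hcov⟩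
    · have h3 : (d : ℝ) ≤ 10 ^ 8 * (2 * C * Real.log (2 * K)) :=
        hd.trans (by gcongr)
      have h4 : Real.log (2 * K) ≤ 1 + Real.log K := by
        rw [Real.log_mul (by norm_num) hK0.ne']
        have := log2_lt
        linarith
      have h5 : 10 ^ 8 * (2 * C * Real.log (2 * K)) ≤ a * (1 + Real.log K) := by
        calc 10 ^ 8 * (2 * C * Real.log (2 * K)) ≤ 10 ^ 8 * (2 * C * (1 + Real.log K)) := by gcongr
          _ ≤ a * (1 + Real.log K) := by
            rw [ha]
            have : 0 ≤ C * (1 + Real.log K) := by positivity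
            linarith
      have h6 : a * (1 + Real.log K) ≤ (2 ^ a + a) * (1 + Real.log K) := by
        gcongr
        linarith
      linarith
    · have h3 : 0 < 2 * (K * (C * K ^ C)) := by positivity
      have h4 : (2 * (K * (C * K ^ C))) ^ (10 ^ 9 : ℝ) ≤ (2 * K) ^ a := by
        have h7 : (2 * K) ^ a = Real.exp (Real.log (2 * K) * a) :=
          Real.rpow_def_of_pos (by positivity) a
        rw [Real.rpow_def_of_pos h3, h7, Real.exp_le_exp]
        calc Real.log (2 * (K * (C * K ^ C))) * 10 ^ 9 ≤ (2 * C * Real.log (2 * K)) * 10 ^ 9 := by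
              gcongr
          _ = Real.log (2 * K) * a := by rw [ha]; ring
      have h5 : (2 * K) ^ a = 2 ^ a * K ^ a := Real.mul_rpow (by norm_num) hK0.le
      have h6 : K ^ a ≤ K ^ (2 ^ a + a) := Real.rpow_le_rpow_of_exponent_le hK1 (by linarith)
      calc (T.card : ℝ) ≤ (2 * K) ^ a := hT.trans h4
        _ = 2 ^ a * K ^ a := h5
        _ ≤ (2 ^ a + a) * K ^ (2 ^ a + a) := by gcongr; linarith
  tfae_finish

/-- **Sets of minimal growth have few averages.** -/
theorem avg_of_growth {m n l : ℕ} {S : Finset (Fin m → ℤ)} (u : Fin m → ℤ)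
    (hn : 1 ≤ n) (hcube : ∀ ε : Fin m → ℤ, (∀ i, ε i = 0 ∨ ε i = 1) → Sm S l (u + ε)) {M : ℝ}
    (hgrow : ((SmF S ((l + 1) * n)).card : ℝ) ≤ M * n ^ m * S.card) (hS : S.Nonempty) :
    ((Avg n S).ncard : ℝ) ≤ M * S.card := by
  classical
  have hn0 : (0 : ℝ) < n := by exact_mod_cast hn
  -- the digits
  let D : Finset (Fin m → ℤ) := Fintype.piFinset fun _ => Finset.Ico (0 : ℤ) n
  have hDc : D.card = n ^ m := by
    simp only [D, Fintype.card_piFinset, Int.card_Ico, Finset.prod_const, Finset.card_univ,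
      Fintype.card_fin]
    simp
  have hdig : ∀ (k : ℕ) (r : Fin m → ℤ), (∀ i, 0 ≤ r i ∧ r i ≤ k) → Sm S (k * l) (k • u + r) := by
    intro k
    induction k with
    | zero =>
      intro r hr
      have : r = 0 := by
        funext i
        have := hr i
        simp only [Nat.cast_zero] at this
        show r i = 0
        omega
      rw [this, zero_mul, zero_smul, add_zero]
      exact Sm.zero' S
    | succ k ih =>
      intro r hr
      have h1 := ih (fun i => min (r i) k) (fun i => ⟨le_min (hr i).1 (by positivity), min_le_right _ _⟩)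
      have h2 := hcube (fun i => r i - min (r i) k) (fun i => by
        have := hr i
        push_cast at this
        omega)
      have h3 := h1.add h2
      have h4 : (k • u + fun i => min (r i) (k : ℤ)) + (u + fun i => r i - min (r i) (k : ℤ)) =
          (k + 1) • u + r := by
        funext i
        simp only [Pi.add_apply, Pi.smul_apply]
        simp only [nsmul_eq_mul]
        push_cast
        ring
      rw [h4] at h3
      rwa [Nat.succ_mul]
  obtain ⟨s₀, hs₀⟩ := hS
  -- the injection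
  have hfin := Avg_finite hn S
  have hcard : hfin.toFinset.card * D.card ≤ (SmF S ((l + 1) * n)).card := by
    rw [← Finset.card_product]
    refine Finset.card_le_card_of_injOn (fun q => n • q.1 + (n • u + q.2)) ?_ ?_
    · rintro ⟨x, r⟩ hq
      rw [Finset.mem_coe, Finset.mem_product] at hq
      have hx := mem_Avg.1 (hfin.mem_toFinset.1 hq.1)
      have hr : ∀ i, 0 ≤ r i ∧ r i ≤ (n : ℤ) := by
        intro i
        have h1 := Fintype.mem_piFinset.1 hq.2 i
        rw [Finset.mem_Ico] at h1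
        exact ⟨h1.1, h1.2.le⟩
      have h2 := hx.add (hdig n r hr)
      rw [Finset.mem_coe, mem_SmF]
      have h3 : n + n * l = (l + 1) * n := by ring
      rw [h3] at h2
      exact h2
    · rintro ⟨x, r⟩ hq ⟨x', r'⟩ hq' heq
      rw [Finset.mem_coe, Finset.mem_product] at hq hq'
      have heq' : n • x + (n • u + r) = n • x' + (n • u + r') := heq
      have h0 : ∀ i, x i = x' i ∧ r i = r' i := by
        intro i
        have h1 := Fintype.mem_piFinset.1 hq.2 i
        have h2 := Fintype.mem_piFinset.1 hq'.2 i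
        rw [Finset.mem_Ico] at h1 h2
        have h3 := congrFun heq' i
        simp only [Pi.add_apply, Pi.smul_apply] at h3
        simp only [nsmul_eq_mul] at h3
        have h4 : (n : ℤ) * (x i - x' i) = r' i - r i := by linarith
        have hnz : (0 : ℤ) < n := by exact_mod_cast hn
        have h5 : x i - x' i = 0 := by
          have h6 : (n : ℤ) * (x i - x' i) < n * 1 := by
            rw [h4]
            linarith [h2.2, h1.1]
          have h7 : (n : ℤ) * (-1) < n * (x i - x' i) := by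
            rw [h4]
            linarith [h1.2, h2.1]
          have h8 := lt_of_mul_lt_mul_left h6 hnz.le
          have h9 := lt_of_mul_lt_mul_left h7 hnz.le
          omega
        rw [h5, mul_zero] at h4
        exact ⟨by linarith, by linarith⟩
      have hx : x = x' := funext fun i => (h0 i).1
      have hr : r = r' := funext fun i => (h0 i).2
      rw [hx, hr]
  rw [hDc, ← Set.ncard_eq_toFinset_card _ hfin] at hcard
  have h1 : ((Avg n S).ncard : ℝ) * n ^ m ≤ M * n ^ m * S.card := by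
    have : ((Avg n S).ncard : ℝ) * n ^ m ≤ (SmF S ((l + 1) * n)).card := by exact_mod_cast hcard
    exact this.trans hgrow
  have h2 : ((Avg n S).ncard : ℝ) * n ^ m ≤ (M * S.card) * n ^ m := by linarith
  exact le_of_mul_le_mul_right h2 (by positivity)

/-- The averages times the classes modulo `n` of the `k`-fold sums are at most the `n + k`-fold
sums. -/
theorem avg_of_classes {m n k : ℕ} {S : Finset (Fin m → ℤ)} (hn : 1 ≤ n) {M : ℝ}
    (hgrow : ((SmF S (n + k)).card : ℝ) ≤
      M * ((SmF S k).image fun z i => (z i : ZMod n)).card * S.card) (hS : S.Nonempty) :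
    ((Avg n S).ncard : ℝ) ≤ M * S.card := by
  classical
  have hfin := Avg_finite hn S
  set R := (SmF S k).image fun z i => (z i : ZMod n) with hR
  have hrep : ∀ r ∈ R, ∃ z ∈ SmF S k, (fun i => (z i : ZMod n)) = r := by
    intro r hr
    obtain ⟨z, hz, hzr⟩ := Finset.mem_image.1 hr
    exact ⟨z, hz, hzr⟩
  choose! g hg hgr using hrep
  have hRpos : (0 : ℝ) < R.card := by
    exact_mod_cast ((SmF_nonempty hS k).image _).card_pos
  have hnz : (0 : ℤ) < n := by exact_mod_cast hn
  have hcard : hfin.toFinset.card * R.card ≤ (SmF S (n + k)).card := by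
    rw [← Finset.card_product]
    refine Finset.card_le_card_of_injOn (fun q => n • q.1 + g q.2) ?_ ?_
    · rintro ⟨x, r⟩ hq
      rw [Finset.mem_coe, Finset.mem_product] at hq
      have hx := mem_Avg.1 (hfin.mem_toFinset.1 hq.1)
      exact Finset.mem_coe.2 (mem_SmF.2 (hx.add (mem_SmF.1 (hg r hq.2))))
    · rintro ⟨x, r⟩ hq ⟨x', r'⟩ hq' heq
      rw [Finset.mem_coe, Finset.mem_product] at hq hq'
      have heq' : n • x + g r = n • x' + g r' := heq
      have hr : r = r' := by
        rw [← hgr r hq.2, ← hgr r' hq'.2]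
        funext i
        have h3 := congrFun heq' i
        simp only [Pi.add_apply, Pi.smul_apply] at h3
        simp only [nsmul_eq_mul] at h3
        have h4 := congrArg (fun z : ℤ => (z : ZMod n)) h3
        simpa using h4
      subst hr
      have h5 : n • x = n • x' := add_right_cancel heq'
      have h6 : x = x' := nsmul_right_injective (by omega : n ≠ 0) h5
      rw [h6]
  rw [← Set.ncard_eq_toFinset_card _ hfin] at hcard
  have h1 : ((Avg n S).ncard : ℝ) * R.card ≤ M * R.card * S.card := by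
    have : ((Avg n S).ncard : ℝ) * R.card ≤ (SmF S (n + k)).card := by exact_mod_cast hcard
    exact this.trans hgrow
  have h2 : ((Avg n S).ncard : ℝ) * R.card ≤ (M * S.card) * R.card := by linarith
  exact le_of_mul_le_mul_right h2 hRpos

theorem Sums_eq {m k : ℕ} (S : Finset (Fin m → ℤ)) : Sums k S = (SmF S k : Set (Fin m → ℤ)) := by
  ext x
  rw [Finset.mem_coe, mem_SmF]
  constructor
  · rintro ⟨a, ha, h⟩
    exact ⟨a, ha, h.symm⟩
  · rintro ⟨a, ha, h⟩
    exact ⟨a, ha, h.symm⟩

theorem few_of_classes {m n k : ℕ} {S : Finset (Fin m → ℤ)} (hn : 1 ≤ n) (hS : S.Nonempty) {M : ℝ}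
    (hgrow : ((Sums (n + k) S).ncard : ℝ) ≤ M * (Classes n k S).ncard * S.card) :
    ((Avg n S).ncard : ℝ) ≤ M * S.card := by
  classical
  refine avg_of_classes hn (k := k) ?_ hS
  rw [Classes, Sums_eq, Sums_eq, Set.ncard_coe_finset, ← Finset.coe_image, Set.ncard_coe_finset] at hgrow
  exact hgrow

theorem few_of_cube {m n l : ℕ} {S : Finset (Fin m → ℤ)} (hn : 1 ≤ n) (hS : S.Nonempty) {M : ℝ}
    (u : Fin m → ℤ) (hcube : ∀ ε : Fin m → ℤ, (∀ i, ε i = 0 ∨ ε i = 1) → u + ε ∈ Sums l S)
    (hgrow : ((Sums ((l + 1) * n) S).ncard : ℝ) ≤ M * n ^ m * S.card) :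
    ((Avg n S).ncard : ℝ) ≤ M * S.card := by
  refine avg_of_growth (l := l) u hn ?_ ?_ hS
  · intro ε hε
    have := hcube ε hε
    rw [Sums_eq, Finset.mem_coe, mem_SmF] at this
    exact this
  · rw [Sums_eq, Set.ncard_coe_finset] at hgrow
    exact hgrow

end Pool.Agent.Helper44.FA
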