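import Pool.Agent.Helper44.FA.Sums

set_option autoImplicit false

/-! The Fourier core: a symmetric set with bounded growth. -/

open scoped Pointwise

namespace Pool.Agent.Helper44.FA

open N173.BR Pool.Agent.TH198.DC H112

variable {G : Type*} [AddCommGroup G]

theorem Law_ent_le {p : AddMonoidAlgebra ℝ G} (hp : Law p) {S : Finset G} {k : ℕ}
    (h : Sp S k p) : H p ≤ Real.log (SmF S k).card := by
  refine ent_le_log_card hp ?_
  intro x hx
  rw [Finsupp.mem_support_iff] at hx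
  exact mem_SmF.2 (h x hx)

theorem fourier_core [AddGroup.FG G] {S : Finset G} (hS : S.Nonempty) (hs : ∀ s ∈ S, -s ∈ S)
    {N₁ m : ℕ} (hN₁ : 1 ≤ N₁) {Λ : ℝ}
    (h1 : Real.log (SmF S (2 * (N₁ + 1))).card ≤ Real.log S.card + Λ)
    (h2 : Real.log (SmF S (2 * (1 + m * (N₁ * 2)))).card ≤ Real.log S.card + Λ)
    (h4 : (1 / 4 : ℝ) ^ m ≤ Real.exp (-Λ) / 4) :
    ∃ (Sp : Set (G →+ UnitAddCircle)) (E : Finset G), E ⊆ S ∧
      (S.card : ℝ) * Real.exp (-1) ≤ E.card ∧
      (∀ x ∈ E, ∀ y ∈ E, x - y ∈ bohr Sp (4 * Real.sqrt (Λ / N₁))) ∧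
      (bohr Sp (1 / 6)).Finite ∧
      ∀ x ∈ bohr Sp (1 / 6), Sm S (2 * (1 + m * (N₁ * 2))) x := by
  classical
  have hS0 : (0 : ℝ) < S.card := by exact_mod_cast hS.card_pos
  have hN0 : (0 : ℝ) < N₁ := by exact_mod_cast hN₁
  set p : AddMonoidAlgebra ℝ G := U S with hp
  have hpl : Law p := law_U hS
  have hsp : Sp S 1 p := Sp.of_support size_support_U
  have hql : Law (p * p) := hpl.mul hpl
  have hHp : H p = Real.log S.card := H_U hS
  -- near invariance
  have hinc : H ((p * p) ^ (N₁ + 1)) - H (p * p) ≤ N₁ * (Λ / N₁) := by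
    have e1 : H ((p * p) ^ (N₁ + 1)) ≤ Real.log (SmF S (2 * (N₁ + 1))).card := by
      have h := Law_ent_le (hql.pow (N₁ + 1)) (Sp.pow (hsp.mul hsp) (N₁ + 1))
      rwa [mul_comm (N₁ + 1) (1 + 1)] at h
    have e2 : H p ≤ H (p * p) := H_le_mul hpl hpl
    rw [mul_div_cancel₀ _ hN0.ne']
    linarith
  obtain ⟨E, hES, hEc, hE⟩ := near_invariance (A := S) hpl hpl size_support_U hN₁ (D := 0)
    (by rw [hHp, sub_zero]) hinc
  set r := (p * p) ^ N₁ with hr
  have hrl : Law r := hql.pow N₁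
  have hrs : Sp S (N₁ * 2) r := Sp.pow (hsp.mul hsp) N₁
  -- the measure `f`
  set g : AddMonoidAlgebra ℝ G := p * r ^ m with hg
  have hgl : Law g := hpl.mul (hrl.pow m)
  have hgs : Sp S (1 + m * (N₁ * 2)) g := hsp.mul (Sp.pow hrs m)
  have hfg : p * refl p * (r * refl r) ^ m = g * refl g := by
    rw [hg, refl_mul, refl_pow r m, mul_pow]; ring
  have hsupp : ∀ x, (g * refl g).coeff x ≠ 0 → Sm S (2 * (1 + m * (N₁ * 2))) x := by
    intro x hx
    obtain ⟨u, v, hu, hv, rfl⟩ := Df_of_mul hgs hx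
    rw [two_mul]
    exact Sm.sub hs hu hv
  have hHf : H (g * refl g) ≤ Real.log S.card + Λ :=
    (Law_ent_le (hgl.mul hgl.refl) hsupp).trans h2
  have hf0 : Real.exp (-(Real.log S.card + Λ)) ≤ (g * refl g).coeff 0 :=
    (Real.exp_le_exp.2 (by linarith)).trans (exp_neg_le_coeff_zero hgl)
  have hexp : Real.exp (-(Real.log S.card + Λ)) = Real.exp (-Λ) / S.card := by
    rw [neg_add, Real.exp_add, Real.exp_neg, Real.exp_log hS0]
    field_simp
  rw [hexp, div_le_iff₀ hS0] at hf0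
  have hfpos : 0 < (g * refl g).coeff 0 := by
    by_contra hc
    have h5 : (g * refl g).coeff 0 * S.card ≤ 0 := mul_nonpos_of_nonpos_of_nonneg (not_lt.1 hc) hS0.le
    have h6 := Real.exp_pos (-Λ)
    linarith
  have h44 : (1 / 4 : ℝ) ^ m ≤ (p * refl p * (r * refl r) ^ m).coeff 0 * S.card / 4 := by
    rw [hfg]
    refine h4.trans ?_
    linarith
  have hfin := (bohr_finite (G := G) hS hrl (m := m) h44).1
  have hkey := fg_case (G := G) hS hrl (m := m) h44
  refine ⟨{γ : G →+ UnitAddCircle | 1 / 2 ≤ ‖ft r γ‖}, E, hES, ?_, ?_, hfin, ?_⟩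
  · refine le_trans (le_of_eq ?_) hEc
    norm_num
  · intro x hx y hy γ hγ
    exact hE x hx y hy γ hγ
  · intro x hx
    have h7 := hkey x hx
    rw [← hp, hfg] at h7
    apply hsupp
    intro h0
    rw [h0] at h7
    linarith

end Pool.Agent.Helper44.FA
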