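import Pool.Agent.Helper44.FA.Dense
import Pool.Graph.R_seed8.H112R2.Main

set_option autoImplicit false

/-! The geometric step: lattice points of a quarter of the convex hull are averages. -/

open scoped Pointwise

namespace Pool.Agent.Helper44.FA

open N173.BR Pool.Agent.TH198.DC H112

theorem rv_sum {d : ℕ} {ι : Type*} (t : Finset ι) (f : ι → Fin d → ℤ) :
    rv (∑ i ∈ t, f i) = ∑ i ∈ t, rv (f i) := by
  classical
  induction t using Finset.induction_on with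
  | empty => simp [rv_zero]
  | insert a t ha ih => rw [Finset.sum_insert ha, Finset.sum_insert ha, rv_add, ih]

theorem rv_nsmul {d : ℕ} (k : ℕ) (f : Fin d → ℤ) : rv (k • f) = (k : ℝ) • rv f := by
  funext i; simp [rv]

theorem LL_iff {m : ℕ} (N : Seminorm ℝ (Fin m → ℝ)) (r : ℝ) (c : Fin m → ℤ) :
    c ∈ LL N r ↔ N (rv c) ≤ r := Iff.rfl

/-- the body: convex hull of the differences plus a small ball -/
theorem body {m : ℕ} {N : Seminorm ℝ (Fin m → ℝ)} (hN : ∀ x, N x = 0 → x = 0)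
    {F : Finset (Fin m → ℤ)} (hF : F.Nonempty) {δ : ℝ} (hδ : 0 < δ) :
    SB (convexHull ℝ (rv '' ((F - F : Finset (Fin m → ℤ)) : Set (Fin m → ℤ))) + {x | N x ≤ δ}) := by
  obtain ⟨hb1, hb2, hb3, hb4⟩ := symmBody_ball N hN hδ
  set H := convexHull ℝ (rv '' ((F - F : Finset (Fin m → ℤ)) : Set (Fin m → ℤ))) with hH
  have hHc : IsCompact H := ((Finset.finite_toSet _).image rv).isCompact_convexHull (𝕜 := ℝ)
  have h0 : (0 : Fin m → ℝ) ∈ H := by
    obtain ⟨f, hf⟩ := hF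
    refine subset_convexHull _ _ ⟨0, ?_, rv_zero⟩
    rw [Finset.mem_coe, ← sub_self f]
    exact Finset.sub_mem_sub hf hf
  have hHs : ∀ x ∈ H, -x ∈ H := by
    intro x hx
    have h1 : -x ∈ -H := by simpa using hx
    rw [hH, ← convexHull_neg (𝕜 := ℝ)] at h1
    refine convexHull_mono ?_ h1
    rintro y hy
    rw [Set.mem_neg] at hy
    obtain ⟨z, hz, hzy⟩ := hy
    refine ⟨-z, ?_, by rw [rv_neg, hzy, neg_neg]⟩
    rw [Finset.mem_coe] at hz ⊢
    obtain ⟨a, ha, b, hb, rfl⟩ := Finset.mem_sub.1 hz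
    rw [neg_sub]
    exact Finset.sub_mem_sub hb ha
  refine ⟨(convex_convexHull ℝ _).add hb1, hHc.add hb2, ?_, ?_⟩
  · obtain ⟨x, hx⟩ := hb3
    refine ⟨x, ?_⟩
    refine interior_mono ?_ hx
    intro y hy
    exact ⟨0, h0, y, hy, by simp⟩
  · rintro _ ⟨x, hx, y, hy, rfl⟩
    refine ⟨-x, hHs x hx, -y, hb4 y hy, ?_⟩
    show -x + -y = -(x + y)
    abel

/-- the rounding step -/
theorem round_step {m n : ℕ} (hn : 1 ≤ n) {N : Seminorm ℝ (Fin m → ℝ)} {F : Finset (Fin m → ℤ)}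
    {ρ : ℝ} (hρ0 : 0 < ρ)
    (hF : ∀ f ∈ F - F, N (rv f) ≤ 2 * ρ) {y : Fin m → ℤ}
    (hy : rv y ∈ (1 / 4 : ℝ) • (convexHull ℝ (rv '' ((F - F : Finset (Fin m → ℤ)) :
      Set (Fin m → ℤ))) + {x | N x ≤ ρ / n})) :
    ∃ (t : Finset (Fin m → ℤ)) (k : (Fin m → ℤ) → ℕ), (∀ f ∈ t, f ∈ F - F) ∧
      4 * ∑ f ∈ t, k f ≤ n ∧ N (rv (n • y - ∑ f ∈ t, k f • f)) ≤ (2 * (m + 1) + 1) * ρ := by
  classical
  have hn0 : (0 : ℝ) < n := by exact_mod_cast hn
  obtain ⟨v, ⟨p, hp, u, hu, hpu⟩, hv⟩ := hy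
  rw [convexHull_eq_union] at hp
  simp only [Set.mem_iUnion] at hp
  obtain ⟨T, hT, hTi, hpT⟩ := hp
  have hTcard : T.card ≤ m + 1 := by
    have h := hTi.card_le_finrank_succ
    rw [Fintype.card_coe] at h
    refine h.trans (Nat.succ_le_succ ((Submodule.finrank_le _).trans ?_))
    rw [Module.finrank_fin_fun]
  rw [Finset.mem_convexHull'] at hpT
  obtain ⟨w, hw0, hw1, hwp⟩ := hpT
  have hpre : ∀ x ∈ T, ∃ f ∈ F - F, rv f = x := by
    intro x hx
    obtain ⟨f, hf, hfx⟩ := hT hx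
    exact ⟨f, hf, hfx⟩
  choose! g hg hgx using hpre
  have hginj : Set.InjOn g (T : Set (Fin m → ℝ)) := by
    intro a ha b hb hab
    rw [← hgx a ha, ← hgx b hb, hab]
  refine ⟨T.image g, fun f => ⌊(n : ℝ) * w (rv f) / 4⌋₊, ?_, ?_, ?_⟩
  · intro f hf
    obtain ⟨x, hx, rfl⟩ := Finset.mem_image.1 hf
    exact hg x hx
  · rw [Finset.sum_image hginj]
    have h1 : ∑ x ∈ T, (⌊(n : ℝ) * w (rv (g x)) / 4⌋₊ : ℝ) ≤ n / 4 := by
      calc ∑ x ∈ T, (⌊(n : ℝ) * w (rv (g x)) / 4⌋₊ : ℝ) ≤ ∑ x ∈ T, (n : ℝ) / 4 * w x := by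
            refine Finset.sum_le_sum fun x hx => ?_
            rw [hgx x hx]
            refine (Nat.floor_le ?_).trans (le_of_eq (by ring))
            have := hw0 x hx
            positivity
        _ = n / 4 := by rw [← Finset.mul_sum, hw1, mul_one]
    have h2 : ((4 * ∑ x ∈ T, ⌊(n : ℝ) * w (rv (g x)) / 4⌋₊ : ℕ) : ℝ) ≤ (n : ℝ) := by
      push_cast
      linarith
    exact_mod_cast h2
  · rw [Finset.sum_image hginj]
    have hz : rv (n • y - ∑ x ∈ T, ⌊(n : ℝ) * w (rv (g x)) / 4⌋₊ • g x) =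
        (∑ x ∈ T, ((n : ℝ) * w x / 4 - ⌊(n : ℝ) * w x / 4⌋₊) • x) + ((n : ℝ) / 4) • u := by
      rw [rv_sub, rv_nsmul, rv_sum]
      have e1 : ∑ x ∈ T, rv (⌊(n : ℝ) * w (rv (g x)) / 4⌋₊ • g x) =
          ∑ x ∈ T, (⌊(n : ℝ) * w x / 4⌋₊ : ℝ) • x := by
        refine Finset.sum_congr rfl fun x hx => ?_
        rw [rv_nsmul, hgx x hx]
      have e2 : (n : ℝ) • rv y = ((n : ℝ) / 4) • p + ((n : ℝ) / 4) • u := by
        rw [← hv, ← hpu]
        show (n : ℝ) • ((1 / 4 : ℝ) • (p + u)) = _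
        rw [smul_smul, smul_add]
        congr 2 <;> ring
      have e3 : ((n : ℝ) / 4) • p = ∑ x ∈ T, ((n : ℝ) * w x / 4) • x := by
        rw [← hwp, Finset.smul_sum]
        refine Finset.sum_congr rfl fun x _ => ?_
        rw [smul_smul]
        congr 1
        ring
      rw [e1, e2, e3]
      simp only [sub_smul, Finset.sum_sub_distrib]
      abel
    rw [hz]
    have h1 : N (∑ x ∈ T, ((n : ℝ) * w x / 4 - ⌊(n : ℝ) * w x / 4⌋₊) • x) ≤
        ∑ _x ∈ T, 2 * ρ := by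
      refine (Dim_sum_le N _ _).trans (Finset.sum_le_sum fun x hx => ?_)
      rw [map_smul_eq_mul]
      have h2 : N x ≤ 2 * ρ := by
        rw [← hgx x hx]
        exact hF _ (hg x hx)
      have h0 : 0 ≤ (n : ℝ) * w x / 4 := by
        have := hw0 x hx
        positivity
      have h3 : ‖(n : ℝ) * w x / 4 - ⌊(n : ℝ) * w x / 4⌋₊‖ ≤ 1 := by
        rw [Real.norm_of_nonneg (sub_nonneg.2 (Nat.floor_le h0))]
        have := (Nat.lt_floor_add_one ((n : ℝ) * w x / 4)).le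
        linarith
      calc ‖(n : ℝ) * w x / 4 - ⌊(n : ℝ) * w x / 4⌋₊‖ * N x ≤ 1 * (2 * ρ) :=
            mul_le_mul h3 h2 (apply_nonneg N _) (by norm_num)
        _ = 2 * ρ := one_mul _
    have h2 : ∑ _x ∈ T, 2 * ρ ≤ (m + 1) * (2 * ρ) := by
      rw [Finset.sum_const, nsmul_eq_mul]
      have : (T.card : ℝ) ≤ m + 1 := by exact_mod_cast hTcard
      exact mul_le_mul_of_nonneg_right this (by positivity)
    have h3 : N (((n : ℝ) / 4) • u) ≤ ρ := by
      rw [map_smul_eq_mul, Real.norm_of_nonneg (by positivity)]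
      have h4 : N u ≤ ρ / n := hu
      calc (n : ℝ) / 4 * N u ≤ (n : ℝ) / 4 * (ρ / n) := by gcongr
        _ = ρ / 4 := by field_simp
        _ ≤ ρ := by linarith
    have h4 := map_add_le_add N (∑ x ∈ T, ((n : ℝ) * w x / 4 - ⌊(n : ℝ) * w x / 4⌋₊) • x)
      (((n : ℝ) / 4) • u)
    have h5 : (2 * ((m : ℝ) + 1) + 1) * ρ = (m + 1) * (2 * ρ) + ρ := by ring
    rw [h5]
    linarith

end Pool.Agent.Helper44.FA
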