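import Pool.Agent.Helper44.FA.Geo

set_option autoImplicit false

/-! The geometric step, assembled. -/

open scoped Pointwise

namespace Pool.Agent.Helper44.FA

open N173.BR Pool.Agent.TH198.DC H112

theorem ann_trivial {d : ℕ} {Sp : Set ((Fin d → ℤ) →+ UnitAddCircle)}
    (hfin : (bohr Sp (1 / 6)).Finite) {x : Fin d → ℤ} (hx : x ∈ ann Sp) : x = 0 := by
  have := ann_finite hfin
  have hfo : IsOfFinAddOrder (⟨x, hx⟩ : ann Sp) := isOfFinAddOrder_of_finite _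
  rw [isOfFinAddOrder_iff_nsmul_eq_zero] at hfo
  obtain ⟨m, hm, hmp⟩ := hfo
  have h1 : m • x = 0 := by
    have := congrArg (Subtype.val) hmp
    simpa using this
  exact (smul_eq_zero.1 h1).resolve_left hm.ne'

theorem geo {d n N₀ : ℕ} {S : Finset (Fin d → ℤ)} (hS : S.Nonempty) (hs : ∀ s ∈ S, -s ∈ S)
    (hn : 1 ≤ n) (hev : Even n) (hN2 : 2 * N₀ ≤ n) (hNev : Even N₀)
    {Sp : Set ((Fin d → ℤ) →+ UnitAddCircle)} {E : Finset (Fin d → ℤ)} (hES : E ⊆ S)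
    (hEne : E.Nonempty) {ρ : ℝ} (hρ0 : 0 < ρ) (hEE : ∀ x ∈ E, ∀ y ∈ E, x - y ∈ bohr Sp ρ)
    (hfin : (bohr Sp (1 / 6)).Finite) (hSm : ∀ x ∈ bohr Sp (1 / 6), Sm S N₀ x)
    {m : ℕ} {N : Seminorm ℝ (Fin m → ℝ)} {ψ : (Fin m → ℤ) →+ (Fin d → ℤ)}
    (hN : ∀ x, N x = 0 → x = 0)
    (h1 : ∀ c : Fin m → ℤ, N (fun i => (c i : ℝ)) < 1 / 2 → ∀ r : ℝ, 0 ≤ r →
      (ψ c ∈ bohr Sp r ↔ c ∈ LL N r))
    (h2 : ∀ x ∈ bohr Sp ρ, ∃ c ∈ LL N ρ, x - ψ c ∈ ann Sp)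
    (hm : (2 * ((m : ℝ) + 1) + 1) * ρ ≤ 1 / 6) :
    ∃ (F : Finset (Fin m → ℤ)) (e₀ : Fin d → ℤ) (C : Set (Fin m → ℝ)),
      (∀ f ∈ F, e₀ + ψ f ∈ E) ∧
      (∀ a ∈ F, ∀ b ∈ F, ∀ c ∈ F, ∀ e ∈ F, ψ (a + b) = ψ (c + e) → a + b = c + e) ∧
      Convex ℝ C ∧ (LP C).Finite ∧ (∀ f ∈ F, f ∈ LP C) ∧ (LP C).ncard ≤ (Avg n S).ncard ∧
      E.card ≤ 25 ^ m * F.card := by
  classical
  have hn0 : (0 : ℝ) < n := by exact_mod_cast hn
  have hρ18 : 3 * ρ ≤ 1 / 6 := by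
    have h3 : (3 : ℝ) * ρ ≤ (2 * ((m : ℝ) + 1) + 1) * ρ := by
      apply mul_le_mul_of_nonneg_right _ hρ0.le
      have : (0 : ℝ) ≤ m := Nat.cast_nonneg m
      linarith
    exact h3.trans hm
  have hinj : ∀ c : Fin m → ℤ, N (rv c) < 1 / 2 → ψ c = 0 → c = 0 := by
    intro c hc h0
    have h3 : ψ c ∈ bohr Sp 0 := by
      rw [h0]
      intro γ _
      rw [map_zero, norm_zero]
    exact LL_zero hN ((h1 c hc 0 le_rfl).1 h3)
  obtain ⟨e₀, he₀⟩ := hEne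
  have hex : ∀ x ∈ E, ∃ c : Fin m → ℤ, N (rv c) ≤ ρ ∧ ψ c = x - e₀ := by
    intro x hx
    obtain ⟨c, hc, hxc⟩ := h2 _ (hEE x hx e₀ he₀)
    refine ⟨c, hc, ?_⟩
    have := ann_trivial hfin hxc
    exact (sub_eq_zero.1 this).symm
  choose! c hcN hcψ using hex
  have hcinj : Set.InjOn c (E : Set (Fin d → ℤ)) := by
    intro x hx y hy hxy
    have h3 := hcψ x hx
    rw [hxy, hcψ y hy] at h3
    exact (sub_left_injective h3).symm
  set F₀ := E.image c with hF₀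
  have hF₀c : F₀.card = E.card := Finset.card_image_of_injOn hcinj
  have hF₀ne : F₀.Nonempty := ⟨c e₀, Finset.mem_image_of_mem _ he₀⟩
  have hF₀N : ∀ f ∈ F₀, N (rv f) ≤ ρ := by
    intro f hf
    obtain ⟨x, hx, rfl⟩ := Finset.mem_image.1 hf
    exact hcN x hx
  have hF₀E : ∀ f ∈ F₀, e₀ + ψ f ∈ E := by
    intro f hf
    obtain ⟨x, hx, rfl⟩ := Finset.mem_image.1 hf
    rw [hcψ x hx, add_sub_cancel]
    exact hx
  have hDN : ∀ f ∈ F₀ - F₀, N (rv f) ≤ 2 * ρ := by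
    intro f hf
    obtain ⟨a, ha, b, hb, rfl⟩ := Finset.mem_sub.1 hf
    rw [rv_sub]
    refine (map_sub_le_add N _ _).trans ?_
    have h3 := hF₀N a ha
    have h4 := hF₀N b hb
    linarith
  have hDS : ∀ f ∈ F₀ - F₀, Sm S 2 (ψ f) := by
    intro f hf
    obtain ⟨a, ha, b, hb, rfl⟩ := Finset.mem_sub.1 hf
    have h3 : ψ (a - b) = (e₀ + ψ a) - (e₀ + ψ b) := by rw [map_sub]; abel
    rw [h3]
    exact Sm.sub hs (Sm.of_mem (hES (hF₀E a ha))) (Sm.of_mem (hES (hF₀E b hb)))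
  have hδ : 0 < ρ / n := by positivity
  have hB := body hN hF₀ne hδ
  set B := convexHull ℝ (rv '' ((F₀ - F₀ : Finset (Fin m → ℤ)) : Set (Fin m → ℤ))) +
    {x | N x ≤ ρ / n} with hBdef
  have hF₀B : ∀ x ∈ F₀, ∀ y ∈ F₀, rv (x - y) ∈ B := by
    intro x hx y hy
    refine ⟨rv (x - y), subset_convexHull _ _ ⟨x - y, ?_, rfl⟩, 0, ?_, add_zero _⟩
    · exact Finset.mem_coe.2 (Finset.sub_mem_sub hx hy)
    · show N 0 ≤ ρ / n
      rw [map_zero]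
      exact hδ.le
  have hHN : ∀ x ∈ B, N x ≤ 3 * ρ := by
    rintro _ ⟨p, hp, u, hu, rfl⟩
    have h3 : p ∈ N.closedBall 0 (2 * ρ) := by
      refine convexHull_min ?_ (N.convex_closedBall 0 (2 * ρ)) hp
      rintro _ ⟨f, hf, rfl⟩
      rw [Seminorm.mem_closedBall_zero]
      exact hDN f hf
    rw [Seminorm.mem_closedBall_zero] at h3
    have h4 : N u ≤ ρ / n := hu
    have h5 : ρ / n ≤ ρ := div_le_self hρ0.le (by exact_mod_cast hn)
    refine (map_add_le_add N _ _).trans ?_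
    linarith
  -- lattice points of `B / 4` are averages
  have hquarterN : ∀ y : Fin m → ℤ, rv y ∈ (1 / 4 : ℝ) • B → N (rv y) ≤ ρ := by
    rintro y ⟨b, hb, hby⟩
    have h3 : N (rv y) = 1 / 4 * N b := by
      rw [← hby]
      show N ((1 / 4 : ℝ) • b) = _
      rw [map_smul_eq_mul, Real.norm_of_nonneg (by norm_num)]
    rw [h3]
    have := hHN b hb
    linarith
  have hquarter : ∀ y : Fin m → ℤ, rv y ∈ (1 / 4 : ℝ) • B → ψ y ∈ Avg n S := by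
    intro y hy
    obtain ⟨t, k, ht, hk, hz⟩ := round_step hn hρ0 hDN hy
    have hzN : N (rv (n • y - ∑ f ∈ t, k f • f)) ≤ 1 / 6 := hz.trans hm
    have h3 : ψ (n • y - ∑ f ∈ t, k f • f) ∈ bohr Sp (1 / 6) :=
      (h1 _ (lt_of_le_of_lt hzN (by norm_num)) (1 / 6) (by norm_num)).2 hzN
    have h4 := hSm _ h3
    have h5 : Sm S (∑ f ∈ t, k f * 2) (∑ f ∈ t, k f • ψ f) :=
      Sm.sum t _ _ fun f hf => Sm.nsmul (hDS f (ht f hf)) (k f)
    have h6 := h4.add h5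
    have h7 : ψ (n • y - ∑ f ∈ t, k f • f) + ∑ f ∈ t, k f • ψ f = n • ψ y := by
      rw [map_sub, map_nsmul, map_sum]
      simp only [map_nsmul]
      abel
    rw [h7, ← Finset.sum_mul] at h6
    rw [mem_Avg]
    refine Sm.pad hS hs h6 (by omega) ?_
    obtain ⟨a, ha⟩ := hev
    obtain ⟨b, hb⟩ := hNev
    exact ⟨a - b - ∑ f ∈ t, k f, by omega⟩
  obtain ⟨x₂, hx₂, F, hFF₀, hFc, hFx⟩ := dense_part2 hB F₀ hF₀ne hF₀B
  have hB4 := hB.smul (by norm_num : (0 : ℝ) < 1 / 4)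
  have hLP : (LP ((1 / 4 : ℝ) • B)).ncard ≤ (Avg n S).ncard := by
    refine Set.ncard_le_ncard_of_injOn ψ hquarter ?_ (Avg_finite hn S)
    intro y hy y' hy' hyy
    have h3 : N (rv (y - y')) < 1 / 2 := by
      rw [rv_sub]
      refine lt_of_le_of_lt (map_sub_le_add N _ _) ?_
      have h4 := hquarterN y hy
      have h5 := hquarterN y' hy'
      linarith
    exact sub_eq_zero.1 (hinj _ h3 (by rw [map_sub, hyy, sub_self]))
  set C : Set (Fin m → ℝ) := (fun z => z - rv x₂) ⁻¹' ((1 / 4 : ℝ) • B) with hC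
  have hCLP : LP C = (fun z => z - x₂) ⁻¹' (LP ((1 / 4 : ℝ) • B)) := by
    ext z
    show rv z - rv x₂ ∈ (1 / 4 : ℝ) • B ↔ rv (z - x₂) ∈ (1 / 4 : ℝ) • B
    rw [rv_sub]
  have hCimg : LP C = (fun z => z + x₂) '' (LP ((1 / 4 : ℝ) • B)) := by
    rw [hCLP]
    ext z
    constructor
    · intro hz
      exact ⟨z - x₂, hz, sub_add_cancel _ _⟩
    · rintro ⟨w, hw, rfl⟩
      show w + x₂ - x₂ ∈ LP ((1 / 4 : ℝ) • B)
      rwa [add_sub_cancel_right]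
  refine ⟨F, e₀, C, fun f hf => hF₀E f (hFF₀ hf), ?_, ?_, ?_, ?_, ?_, ?_⟩
  · intro a ha b hb c' hc' e he heq
    have hz : N (rv (a + b - (c' + e))) < 1 / 2 := by
      rw [rv_sub, rv_add, rv_add]
      refine lt_of_le_of_lt (map_sub_le_add N _ _) ?_
      have g1 := map_add_le_add N (rv a) (rv b)
      have g2 := map_add_le_add N (rv c') (rv e)
      have g3 := hF₀N a (hFF₀ ha)
      have g4 := hF₀N b (hFF₀ hb)
      have g5 := hF₀N c' (hFF₀ hc')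
      have g6 := hF₀N e (hFF₀ he)
      linarith
    exact sub_eq_zero.1 (hinj _ hz (by rw [map_sub, heq, sub_self]))
  · have h3 : Convex ℝ ((fun z : Fin m → ℝ => z + (-rv x₂)) ⁻¹' ((1 / 4 : ℝ) • B)) :=
      hB4.conv.translate_preimage_left (-rv x₂)
    rw [hC]
    simpa only [sub_eq_add_neg] using h3
  · rw [hCimg]
    exact hB4.fin1.image _
  · intro f hf
    rw [hCLP]
    exact hFx f hf
  · rw [hCimg]
    exact (Set.ncard_image_le hB4.fin1).trans hLP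
  · rw [← hF₀c]
    exact hFc

end Pool.Agent.Helper44.FA
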