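import Pool.Agent.Helper44.FA.Core

set_option autoImplicit false

/-! Sets with a piece with few averages. -/

open scoped Pointwise

namespace Pool.Agent.Helper44.FA

open N173.BR Pool.Agent.TH198.DC H112 Pool.Agent.R934.PF

theorem log4_lt : Real.log 4 < 1.3864 := by
  have h4 : Real.log 4 = 2 * Real.log 2 := by
    rw [show (4 : ℝ) = 2 ^ 2 by norm_num, Real.log_pow]
    norm_num
  have := log2_lt
  rw [h4]; linarith

theorem log25_lt : Real.log 25 < 3.27 := by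
  have h1 : Real.log ((25 : ℝ) ^ 14) < Real.log ((2 : ℝ) ^ 66) :=
    Real.log_lt_log (by norm_num) (by norm_num)
  rw [Real.log_pow, Real.log_pow] at h1
  have h2 := Real.log_two_lt_d9
  push_cast at h1
  linarith

/-- From a piece with few averages to a dense piece of a convex set. -/
theorem piece_of_avg {Γ : Type*} [AddCommGroup Γ] [DecidableEq Γ] {K M : ℝ} {A : Finset Γ}
    (hA : A.Nonempty) (hK : ((A + A).card : ℝ) ≤ K * A.card) {n : ℕ} (hev : Even n)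
    (hn : 2 ^ 100 * Real.log (2 * (K * M)) ^ 5 ≤ n) {m₀ : ℕ} (S : Finset (Fin m₀ → ℤ))
    (φ : (Fin m₀ → ℤ) →+ Γ) (t : Γ)
    (hφ : Set.InjOn φ ((S + S : Finset (Fin m₀ → ℤ)) : Set (Fin m₀ → ℤ)))
    (hSA : ∀ s ∈ S, t + φ s ∈ A) (hM : (A.card : ℝ) ≤ M * S.card)
    (hAvg : ((Avg n S).ncard : ℝ) ≤ M * S.card) :
    1 ≤ K ∧ 1 ≤ M ∧ ∃ (m : ℕ) (F : Finset (Fin m → ℤ)) (φ' : (Fin m → ℤ) →+ Γ) (t' : Γ)
      (C : Set (Fin m → ℝ)), FInj 2 φ' F ∧ (∀ f ∈ F, t' + φ' f ∈ A) ∧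
      (A.card : ℝ) ≤ Real.exp (200000 * Real.log (2 * (K * M))) * F.card ∧
      Convex ℝ C ∧ (LP C).Finite ∧ (∀ f ∈ F, f ∈ LP C) ∧
      ((LP C).ncard : ℝ) ≤ Real.exp (200000 * Real.log (2 * (K * M))) * F.card := by
  classical
  have hAc : (0 : ℝ) < A.card := by exact_mod_cast hA.card_pos
  have hSne : S.Nonempty := by
    rw [← Finset.card_pos]
    by_contra h
    have : S.card = 0 := by omega
    rw [this, Nat.cast_zero, mul_zero] at hM
    linarith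
  have hinj : Set.InjOn (fun s => t + φ s) (S : Set (Fin m₀ → ℤ)) := by
    intro x hx y hy hxy
    have h1 : φ x = φ y := add_left_cancel (hxy : t + φ x = t + φ y)
    have h3 : x + x = x + y := hφ (Finset.mem_coe.2 (Finset.add_mem_add hx hx))
      (Finset.mem_coe.2 (Finset.add_mem_add hx hy)) (by rw [map_add, map_add, h1])
    exact add_left_cancel h3
  have hSAc : (S.card : ℝ) ≤ A.card := by
    exact_mod_cast Finset.card_le_card_of_injOn (fun s => t + φ s) (fun s hs => hSA s hs) hinj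
  have hSc : (0 : ℝ) < S.card := by exact_mod_cast hSne.card_pos
  have hM1 : 1 ≤ M := by
    by_contra h
    push Not at h
    nlinarith
  have hK1 : 1 ≤ K := by
    have h1 : (A.card : ℝ) ≤ (A + A).card := by
      exact_mod_cast Finset.card_le_card_add_right hA
    by_contra h
    nlinarith
  refine ⟨hK1, hM1, ?_⟩
  have hKM1 : 1 ≤ K * M := by nlinarith
  -- the doubling of `S`
  have hSS : (S + S : Finset (Fin m₀ → ℤ)).card ≤ (A + A).card := by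
    refine Finset.card_le_card_of_injOn (fun z => t + t + φ z) ?_ ?_
    · intro z hz
      obtain ⟨x, hx, y, hy, rfl⟩ := Finset.mem_add.1 (Finset.mem_coe.1 hz)
      rw [Finset.mem_coe]
      show t + t + φ (x + y) ∈ A + A
      rw [map_add, show t + t + (φ x + φ y) = (t + φ x) + (t + φ y) by abel]
      exact Finset.add_mem_add (hSA x hx) (hSA y hy)
    · intro z hz w hw hzw
      exact hφ hz hw (add_left_cancel (hzw : t + t + φ z = t + t + φ w))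
  have hKS : ((S + S : Finset (Fin m₀ → ℤ)).card : ℝ) ≤ (K * M) * (S.card : ℝ) := by
    have h1 : ((S + S : Finset (Fin m₀ → ℤ)).card : ℝ) ≤ (A + A).card := by exact_mod_cast hSS
    calc ((S + S : Finset (Fin m₀ → ℤ)).card : ℝ) ≤ K * A.card := h1.trans hK
      _ ≤ K * (M * S.card) := by gcongr
      _ = _ := by ring
  obtain ⟨Q, hQ⟩ : ∃ Q : ℝ, Q = K * M := ⟨_, rfl⟩
  obtain ⟨κ, hκ⟩ : ∃ κ : ℝ, κ = Real.log (2 * (K * M)) := ⟨_, rfl⟩
  rw [← hκ] at hn ⊢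
  rw [← hQ] at hKS hκ hKM1
  have hQ0 : 0 < Q := by linarith
  have hκ2 : Real.log 2 ≤ κ := by
    rw [hκ]; exact Real.log_le_log (by norm_num) (by linarith)
  have h69 : (0.693 : ℝ) ≤ κ := log2_gt.le.trans hκ2
  have hκ0 : 0 < κ := by linarith
  have hlogQ : Real.log Q ≤ κ := by
    rw [hκ]; exact Real.log_le_log hQ0 (by linarith)
  have hlogQ0 : 0 ≤ Real.log Q := Real.log_nonneg hKM1
  have hMQ : M ≤ Q := by rw [hQ]; nlinarith
  have hlogM : Real.log M ≤ κ := (Real.log_le_log (by linarith) hMQ).trans hlogQ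
  have hlogM0 : 0 ≤ Real.log M := Real.log_nonneg hM1
  have hn1 : 1 ≤ n := le_trans Nat.one_le_two_pow (num_n hκ2 hn)
  obtain ⟨d, ψ₁, t₁, R, hd, hψ₁, hR1, hRs, hRne, hRc, hRAvg⟩ := reduce hSne hKS hn1
  have hd' : (d : ℝ) ≤ 482 * κ := by linarith
  have hRc0 : (0 : ℝ) < R.card := by exact_mod_cast hRne.card_pos
  have hM0 : 0 < M := by linarith
  set L : ℝ := Real.log M + (d * Real.log 4 + 371 * Real.log Q) with hLdef
  have hexpL : Real.exp L = M * (4 ^ d * Q ^ 371) := by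
    rw [hLdef, Real.exp_add, Real.exp_log hM0, Real.exp_add, Real.exp_nat_mul,
      Real.exp_log (by norm_num)]
    congr 2
    rw [show (371 : ℝ) = ((371 : ℕ) : ℝ) by norm_num, Real.exp_nat_mul, Real.exp_log hQ0]
  have hl4 : 0 < Real.log 4 := Real.log_pos (by norm_num)
  have hL0 : 0 ≤ L := by positivity
  have hL : L ≤ 1041 * κ := by
    have h1 : (d : ℝ) * Real.log 4 ≤ (482 * κ) * 1.3864 :=
      mul_le_mul hd' log4_lt.le hl4.le (by positivity)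
    rw [hLdef]
    linarith
  have hAvgR : ((Avg n R).ncard : ℝ) ≤ Real.exp L * R.card := by
    have h1 : ((Avg n R).ncard : ℝ) ≤ (Avg n S).ncard := by exact_mod_cast hRAvg
    calc ((Avg n R).ncard : ℝ) ≤ M * S.card := h1.trans hAvg
      _ ≤ M * (4 ^ d * Q ^ 371 * R.card) := by gcongr
      _ = Real.exp L * R.card := by rw [hexpL]; ring
  obtain ⟨m, ψ, F, e₀, C, hF1, hF2, hC1, hC2, hC3, hC4, hm, hRF⟩ :=
    piece_core hRne hRs hev hκ2 hn hd' hL0 hL hAvgR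
  have hbig : Real.exp L * (Real.exp 1 * 25 ^ m) ≤ Real.exp (200000 * κ) := by
    have h1 : (25 : ℝ) ^ m = Real.exp (m * Real.log 25) := by
      rw [Real.exp_nat_mul, Real.exp_log (by norm_num)]
    rw [h1, ← Real.exp_add, ← Real.exp_add, Real.exp_le_exp]
    have h25 : 0 < Real.log 25 := Real.log_pos (by norm_num)
    have h2 : (m : ℝ) * Real.log 25 ≤ (60000 * κ) * 3.27 :=
      mul_le_mul hm log25_lt.le h25.le (by positivity)
    linarith
  have hRF' : Real.exp L * (R.card : ℝ) ≤ Real.exp (200000 * κ) * F.card := by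
    calc Real.exp L * (R.card : ℝ) ≤ Real.exp L * (Real.exp 1 * 25 ^ m * F.card) := by gcongr
      _ = (Real.exp L * (Real.exp 1 * 25 ^ m)) * F.card := by ring
      _ ≤ Real.exp (200000 * κ) * F.card := by gcongr
  have hmap : ∀ f, (t + φ (t₁ + ψ₁ e₀)) + (φ.comp (ψ₁.comp ψ)) f = t + φ (t₁ + ψ₁ (e₀ + ψ f)) := by
    intro f
    simp only [AddMonoidHom.comp_apply, map_add]
    abel
  have hFS : ∀ f ∈ F, t₁ + ψ₁ (e₀ + ψ f) ∈ S := fun f hf => hR1 _ (hF1 f hf)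
  refine ⟨m, F, φ.comp (ψ₁.comp ψ), t + φ (t₁ + ψ₁ e₀), C, ?_, ?_, ?_, hC1, hC2, hC3, ?_⟩
  · intro x y hx hy hxy
    simp only [Fin.sum_univ_two] at hxy ⊢
    apply hF2 _ (hx 0) _ (hx 1) _ (hy 0) _ (hy 1)
    apply hψ₁
    have h1 : (t₁ + ψ₁ (e₀ + ψ (x 0))) + (t₁ + ψ₁ (e₀ + ψ (x 1))) =
        (t₁ + ψ₁ (e₀ + ψ (y 0))) + (t₁ + ψ₁ (e₀ + ψ (y 1))) := by
      apply hφ (Finset.mem_coe.2 (Finset.add_mem_add (hFS _ (hx 0)) (hFS _ (hx 1))))
        (Finset.mem_coe.2 (Finset.add_mem_add (hFS _ (hy 0)) (hFS _ (hy 1))))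
      simp only [AddMonoidHom.comp_apply, map_add] at hxy ⊢
      calc _ = (φ t₁ + φ t₁ + φ (ψ₁ e₀) + φ (ψ₁ e₀)) + (φ (ψ₁ (ψ (x 0))) + φ (ψ₁ (ψ (x 1)))) := by abel
        _ = (φ t₁ + φ t₁ + φ (ψ₁ e₀) + φ (ψ₁ e₀)) + (φ (ψ₁ (ψ (y 0))) + φ (ψ₁ (ψ (y 1)))) := by
          rw [hxy]
        _ = _ := by abel
    simp only [map_add] at h1 ⊢
    have h2 : (t₁ + t₁ + ψ₁ e₀ + ψ₁ e₀) + (ψ₁ (ψ (x 0)) + ψ₁ (ψ (x 1))) =
        (t₁ + t₁ + ψ₁ e₀ + ψ₁ e₀) + (ψ₁ (ψ (y 0)) + ψ₁ (ψ (y 1))) := by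
      calc _ = _ := by abel
        _ = _ := h1
        _ = _ := by abel
    exact add_left_cancel h2
  · intro f hf
    rw [hmap]
    exact hSA _ (hFS f hf)
  · calc (A.card : ℝ) ≤ M * S.card := hM
      _ ≤ M * (4 ^ d * Q ^ 371 * R.card) := by gcongr
      _ = Real.exp L * R.card := by rw [hexpL]; ring
      _ ≤ _ := hRF'
  · have h1 : ((LP C).ncard : ℝ) ≤ (Avg n R).ncard := by exact_mod_cast hC4
    exact (h1.trans hAvgR).trans hRF'

/-- **Sets with a piece with few averages.** -/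
theorem cover_of_avg {Γ : Type*} [AddCommGroup Γ] [DecidableEq Γ] {K M : ℝ} {A : Finset Γ}
    (hA : A.Nonempty) (hK : ((A + A).card : ℝ) ≤ K * A.card) {n : ℕ} (hev : Even n)
    (hn : 2 ^ 100 * Real.log (2 * (K * M)) ^ 5 ≤ n) {m₀ : ℕ} (S : Finset (Fin m₀ → ℤ))
    (φ : (Fin m₀ → ℤ) →+ Γ) (t : Γ)
    (hφ : Set.InjOn φ ((S + S : Finset (Fin m₀ → ℤ)) : Set (Fin m₀ → ℤ)))
    (hSA : ∀ s ∈ S, t + φ s ∈ A) (hM : (A.card : ℝ) ≤ M * S.card)
    (hAvg : ((Avg n S).ncard : ℝ) ≤ M * S.card) :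
    ∃ (d : ℕ) (B : Set (Fin d → ℝ)) (ψ : (Fin d → ℤ) →+ Γ) (T : Finset Γ),
      (d : ℝ) ≤ 10 ^ 8 * Real.log (2 * (K * M)) ∧ SB B ∧ (LP B).ncard ≤ A.card ∧
      (T.card : ℝ) ≤ (2 * (K * M)) ^ (10 ^ 9 : ℝ) ∧ ∀ a ∈ A, ∃ t ∈ T, ∃ x ∈ LP B, a = t + ψ x := by
  obtain ⟨hK1, hM1, m, F, φ', t', C, hF, hFA, hAF, hC1, hC2, hC3, hC4⟩ :=
    piece_of_avg hA hK hev hn S φ t hφ hSA hM hAvg
  obtain ⟨κ, hκ⟩ : ∃ κ : ℝ, κ = Real.log (2 * (K * M)) := ⟨_, rfl⟩
  rw [← hκ] at hAF hC4 ⊢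
  have hK0 : 0 < K := by linarith
  have hKM1 : 1 ≤ K * M := by nlinarith
  have hlogK : Real.log K ≤ κ := by
    rw [hκ]
    exact Real.log_le_log hK0 (by nlinarith)
  have hκ2 : Real.log 2 ≤ κ := by
    rw [hκ]; exact Real.log_le_log (by norm_num) (by linarith)
  have h69 : (0.693 : ℝ) ≤ κ := log2_gt.le.trans hκ2
  obtain ⟨d, B, ψ, T, hd, hB, hBc, hT, hcov⟩ := cover_of_piece hA hK F φ' t' hF hFA hAF hC1 hC2 hC3 hC4
  refine ⟨d, B, ψ, T, ?_, hB, hBc, ?_, hcov⟩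
  · rw [Real.log_mul hK0.ne' (Real.exp_pos _).ne', Real.log_exp] at hd
    refine hd.trans ?_
    norm_num
    linarith
  · refine hT.trans ?_
    have h1 : (2 * (K * M)) ^ (10 ^ 9 : ℝ) = Real.exp (κ * 10 ^ 9) := by
      rw [Real.rpow_def_of_pos (by linarith), ← hκ]
    have h2 : 2 * (K * Real.exp (200000 * κ)) ≤ Real.exp (200001 * κ) := by
      have h3 : Real.exp κ = 2 * (K * M) := by rw [hκ, Real.exp_log (by linarith)]
      calc 2 * (K * Real.exp (200000 * κ)) ≤ Real.exp κ * Real.exp (200000 * κ) := by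
            rw [h3, ← mul_assoc]
            gcongr
            nlinarith
        _ = Real.exp (200001 * κ) := by rw [← Real.exp_add]; congr 1; ring
    rw [h1]
    calc (2 * (K * Real.exp (200000 * κ))) ^ 4200 ≤ Real.exp (200001 * κ) ^ 4200 := by gcongr
      _ = Real.exp (((4200 : ℕ) : ℝ) * (200001 * κ)) := by rw [Real.exp_nat_mul]
      _ ≤ Real.exp (κ * 10 ^ 9) := by
        rw [Real.exp_le_exp]
        norm_num
        linarith

end Pool.Agent.Helper44.FA
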