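import Pool.Agent.Helper44.FA.Defs
import Pool.Graph.R_pool_sql_team_seeded_63374d34.N173.BR.Supp
import Pool.Graph.R_pool_sql_team_seeded_b0a926ef.R934.PF.Main

set_option autoImplicit false

/-! Iterated sums, averages and growth. -/

open scoped Pointwise

namespace Pool.Agent.Helper44.FA

open N173.BR Pool.Agent.TH198.DC

theorem mem_Avg {m n : ℕ} {S : Finset (Fin m → ℤ)} {x : Fin m → ℤ} :
    x ∈ Avg n S ↔ Sm S n (n • x) := by
  constructor
  · rintro ⟨a, ha, h⟩
    exact ⟨a, ha, h.symm⟩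
  · rintro ⟨a, ha, h⟩
    exact ⟨a, ha, h.symm⟩

variable {G : Type*} [AddCommGroup G]

/-- the finite set of the `k`-fold sums -/
noncomputable def SmF (S : Finset G) (k : ℕ) : Finset G := by
  classical
  exact (Fintype.piFinset fun _ : Fin k => S).image fun f => ∑ i, f i

theorem mem_SmF {S : Finset G} {k : ℕ} {x : G} : x ∈ SmF S k ↔ Sm S k x := by
  classical
  rw [SmF, Finset.mem_image]
  constructor
  · rintro ⟨f, hf, rfl⟩
    exact ⟨f, fun i => (Fintype.mem_piFinset.1 hf) i, rfl⟩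
  · rintro ⟨f, hf, rfl⟩
    exact ⟨f, Fintype.mem_piFinset.2 hf, rfl⟩

theorem SmF_nonempty {S : Finset G} (hS : S.Nonempty) (k : ℕ) : (SmF S k).Nonempty := by
  obtain ⟨s, hs⟩ := hS
  exact ⟨_, mem_SmF.2 ⟨fun _ => s, fun _ => hs, rfl⟩⟩

theorem Sm.mono {S T : Finset G} (h : S ⊆ T) {k : ℕ} {x : G} (hx : Sm S k x) : Sm T k x := by
  obtain ⟨f, hf, rfl⟩ := hx
  exact ⟨f, fun i => h (hf i), rfl⟩

theorem Sm.zero' (S : Finset G) : Sm S 0 (0 : G) := ⟨Fin.elim0, fun i => i.elim0, by simp⟩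

theorem Sm.of_mem {S : Finset G} {x : G} (hx : x ∈ S) : Sm S 1 x := ⟨fun _ => x, fun _ => hx, by simp⟩

theorem Sm.neg {S : Finset G} (hs : ∀ s ∈ S, -s ∈ S) {k : ℕ} {x : G} (hx : Sm S k x) :
    Sm S k (-x) := by
  obtain ⟨f, hf, rfl⟩ := hx
  exact ⟨fun i => -f i, fun i => hs _ (hf i), by rw [Finset.sum_neg_distrib]⟩

theorem Sm.zero_even {S : Finset G} (hS : S.Nonempty) (hs : ∀ s ∈ S, -s ∈ S) (k : ℕ) :
    Sm S (2 * k) (0 : G) := by
  induction k with
  | zero => exact Sm.zero' S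
  | succ k ih =>
    obtain ⟨s, hs'⟩ := hS
    have h := (ih.add (Sm.of_mem hs')).add (Sm.of_mem (hs _ hs'))
    rw [zero_add, add_neg_cancel] at h
    exact h

theorem Sm.pad {S : Finset G} (hS : S.Nonempty) (hs : ∀ s ∈ S, -s ∈ S) {k l : ℕ} {x : G}
    (hx : Sm S k x) (hkl : k ≤ l) (hev : Even (l - k)) : Sm S l x := by
  obtain ⟨r, hr⟩ := hev
  have h := hx.add (Sm.zero_even hS hs r)
  rw [add_zero] at h
  have : k + 2 * r = l := by omega
  rwa [this] at h

theorem Sm.sub {S : Finset G} (hs : ∀ s ∈ S, -s ∈ S) {k l : ℕ} {x y : G}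
    (hx : Sm S k x) (hy : Sm S l y) : Sm S (k + l) (x - y) := by
  rw [sub_eq_add_neg]
  exact hx.add (Sm.neg hs hy)

theorem Sm.nsmul {S : Finset G} {k : ℕ} {x : G} (hx : Sm S k x) (j : ℕ) :
    Sm S (j * k) (j • x) := by
  induction j with
  | zero => rw [zero_mul, zero_smul]; exact Sm.zero' S
  | succ j ih =>
    rw [Nat.succ_mul, succ_nsmul]
    exact ih.add hx

theorem Sm.sum {S : Finset G} {ι : Type*} (t : Finset ι) (k : ι → ℕ) (x : ι → G)
    (h : ∀ i ∈ t, Sm S (k i) (x i)) : Sm S (∑ i ∈ t, k i) (∑ i ∈ t, x i) := by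
  classical
  induction t using Finset.induction_on with
  | empty => simpa using Sm.zero' S
  | insert a t ha ih =>
    rw [Finset.sum_insert ha, Finset.sum_insert ha]
    exact (h a (Finset.mem_insert_self _ _)).add (ih fun i hi => h i (Finset.mem_insert_of_mem hi))

theorem Avg_finite {m n : ℕ} (hn : 1 ≤ n) (S : Finset (Fin m → ℤ)) : (Avg n S).Finite := by
  refine Set.Finite.of_injOn (f := fun x => n • x) (t := (SmF S n : Set (Fin m → ℤ))) ?_ ?_
    (Finset.finite_toSet _)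
  · intro x hx
    exact Finset.mem_coe.2 (mem_SmF.2 (mem_Avg.1 hx))
  · intro x _ y _ hxy
    exact nsmul_right_injective (by omega : n ≠ 0) hxy

/-- **Growth is controlled by the number of averages.** -/
theorem growth {d n j : ℕ} {S : Finset (Fin d → ℤ)} (hS : S.Nonempty) (hs : ∀ s ∈ S, -s ∈ S)
    (hn : 1 ≤ n) (hev : Even n) (hj : 2 * j ≤ n) :
    (SmF S j).card ≤ n ^ d * (Avg n S).ncard := by
  classical
  have : NeZero n := ⟨by omega⟩
  let f : (Fin d → ℤ) → (Fin d → ZMod n) := fun z i => (z i : ZMod n)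
  obtain ⟨y, -, hy⟩ := pigeon (SmF S j) Finset.univ f (fun _ _ => Finset.mem_univ _)
    Finset.univ_nonempty
  have hcu : (Finset.univ : Finset (Fin d → ZMod n)).card = n ^ d := by
    rw [Finset.card_univ, Fintype.card_fun, ZMod.card, Fintype.card_fin]
  rw [hcu] at hy
  refine hy.trans (Nat.mul_le_mul_left _ ?_)
  rcases ((SmF S j).filter fun a => f a = y).eq_empty_or_nonempty with h | ⟨z0, hz0⟩
  · rw [h]; simp
  · rw [← Set.ncard_coe_finset]
    have hdiv : ∀ z ∈ (SmF S j).filter fun a => f a = y, ∃ g : Fin d → ℤ, z - z0 = n • g := by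
      intro z hz
      rw [Finset.mem_filter] at hz hz0
      have h1 : ∀ i, (n : ℤ) ∣ z i - z0 i := by
        intro i
        have h2 : (z i : ZMod n) = (z0 i : ZMod n) := congrFun (hz.2.trans hz0.2.symm) i
        rw [← ZMod.intCast_zmod_eq_zero_iff_dvd, Int.cast_sub, h2, sub_self]
      choose g hg using h1
      refine ⟨g, ?_⟩
      funext i
      rw [Pi.sub_apply, hg i]
      simp
    choose! g hg using hdiv
    refine Set.ncard_le_ncard_of_injOn g ?_ ?_ (Avg_finite hn S)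
    · intro z hz
      rw [Finset.mem_coe] at hz
      rw [mem_Avg, ← hg z hz]
      have hz' := mem_SmF.1 (Finset.mem_filter.1 hz).1
      have hz0' := mem_SmF.1 (Finset.mem_filter.1 hz0).1
      refine Sm.pad hS hs (Sm.sub hs hz' hz0') (by omega) ?_
      obtain ⟨r, hr⟩ := hev
      exact ⟨r - j, by omega⟩
    · intro z hz w hw hzw
      rw [Finset.mem_coe] at hz hw
      have h1 := hg z hz
      have h2 := hg w hw
      rw [hzw, ← h2] at h1
      exact sub_left_injective h1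

end Pool.Agent.Helper44.FA
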